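import Pool.Agent.L0h78.DG.Final

/-! The first iterates of the `3x+1` map for integers with restricted digits: the count. -/

set_option autoImplicit false

namespace Pool.Agent.L0h78.DG

open Finset

lemma pow_rho {l c₁ ρ : ℝ} (hρ0 : 0 < ρ) (_hρ1 : ρ ≤ 1) (hl : l = -Real.log ρ) (hc0 : 0 < c₁)
    (hc1 : c₁ ≤ 1) (hcl : c₁ ≤ l / 8) {N J : ℕ} (hs : 4 / c₁ < √(N : ℝ))
    (hJ : J ≤ ⌊c₁ * √(N : ℝ)⌋₊) :
    (2 : ℝ) ^ J * ρ ^ (N / (J + 1)) ≤ Real.exp l * Real.exp (-(3 * √(N : ℝ))) := by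
  have hs0 : 0 < √(N : ℝ) := lt_trans (by positivity) hs
  have h4 : 4 < c₁ * √(N : ℝ) := by
    rw [div_lt_iff₀ hc0] at hs
    linarith
  have hJle : (J : ℝ) ≤ c₁ * √(N : ℝ) := by
    have h1 : (J : ℝ) ≤ (⌊c₁ * √(N : ℝ)⌋₊ : ℝ) := by exact_mod_cast hJ
    exact h1.trans (Nat.floor_le (by positivity))
  have hl0 : 0 ≤ l := by
    rw [hl]
    linarith [Real.log_nonpos hρ0.le _hρ1]
  have h2 : (2 : ℝ) ^ J ≤ Real.exp √(N : ℝ) := by
    have h3 : (2 : ℝ) ≤ Real.exp 1 := by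
      have := Real.add_one_le_exp (1 : ℝ)
      linarith
    calc (2 : ℝ) ^ J ≤ Real.exp 1 ^ J := pow_le_pow_left₀ (by norm_num) h3 J
      _ = Real.exp J := by rw [← Real.exp_nat_mul, mul_one]
      _ ≤ _ := Real.exp_le_exp.2 (hJle.trans (by nlinarith))
  have h5 : ρ ^ (N / (J + 1)) = Real.exp (-(l * (N / (J + 1) : ℕ))) := by
    rw [hl, show -(-Real.log ρ * ((N / (J + 1) : ℕ) : ℝ)) = ((N / (J + 1) : ℕ) : ℝ) * Real.log ρ by
      ring, Real.exp_nat_mul, Real.exp_log hρ0]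
  have h6 : (N : ℝ) < (J + 1) * ((N / (J + 1) : ℕ) + 1) := by
    exact_mod_cast Nat.lt_mul_div_succ N (Nat.succ_pos J)
  have hsq : √(N : ℝ) * √(N : ℝ) = N := Real.mul_self_sqrt (Nat.cast_nonneg _)
  have h7 : 4 * √(N : ℝ) < l * ((N / (J + 1) : ℕ) + 1) := by
    have h8 : (J : ℝ) + 1 ≤ 2 * (c₁ * √(N : ℝ)) := by linarith
    have h9 : (0 : ℝ) ≤ ((N / (J + 1) : ℕ) : ℝ) + 1 := by positivity
    have h10 : √(N : ℝ) * √(N : ℝ) < √(N : ℝ) * (2 * c₁ * (((N / (J + 1) : ℕ) : ℝ) + 1)) := by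
      rw [hsq]
      refine h6.trans_le ?_
      have := mul_le_mul_of_nonneg_right h8 h9
      linarith
    have h11 := lt_of_mul_lt_mul_left h10 hs0.le
    have h12 : 2 * c₁ * (((N / (J + 1) : ℕ) : ℝ) + 1) ≤ l / 4 * (((N / (J + 1) : ℕ) : ℝ) + 1) :=
      mul_le_mul_of_nonneg_right (by linarith) h9
    linarith
  rw [h5, ← Real.exp_add]
  calc (2 : ℝ) ^ J * Real.exp (-(l * (N / (J + 1) : ℕ))) ≤
        Real.exp √(N : ℝ) * Real.exp (-(l * (N / (J + 1) : ℕ))) :=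
        mul_le_mul_of_nonneg_right h2 (Real.exp_pos _).le
    _ = Real.exp (√(N : ℝ) + -(l * (N / (J + 1) : ℕ))) := (Real.exp_add _ _).symm
    _ ≤ _ := Real.exp_le_exp.2 (by linarith)

open Classical in
theorem main (b : ℕ) (hb : 3 ≤ b) (hbo : Odd b) (ε : ℝ) (hε : 0 < ε) (hε1 : ε ≤ 1 / 4) :
    ∃ c C : ℝ, 0 < c ∧ 0 < C ∧ ∀ (N K : ℕ) (D : ℕ → Finset ℕ), (∀ i, ∀ x ∈ D i, x < b) →
      (∀ i, (∃ x ∈ D i, Even x) ∧ ∃ x ∈ D i, Odd x) →
      (((SS b D N).filter fun n => Odd n ∧ Fails ε K (c * √(N : ℝ)) n).card : ℝ) ≤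
        C * Real.exp (-(c * K)) * (SS b D N).card := by
  -- the constants
  obtain ⟨F, hF⟩ : ∃ F, F = ∏ j ∈ (range b).filter Odd, j := ⟨_, rfl⟩
  have hFo : Odd F := by
    rw [hF]
    exact prod_induction _ Odd (fun _ _ h1 h2 => h1.mul h2) odd_one fun x hx => (mem_filter.1 hx).2
  have hFdvd : ∀ d, Odd d → d < b → d ∣ F := fun d h1 h2 => by
    rw [hF]
    exact dvd_prod_of_mem (fun j => j) (mem_filter.2 ⟨mem_range.2 h2, h1⟩)
  obtain ⟨ρ, hρ⟩ : ∃ ρ : ℝ, ρ = 1 - 1 / (4 * b ^ 3 * F ^ 2) := ⟨_, rfl⟩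
  have hbR : (3 : ℝ) ≤ b := by exact_mod_cast hb
  have hFR : (1 : ℝ) ≤ F := by exact_mod_cast hFo.pos
  have hq1 : (1 : ℝ) < 4 * b ^ 3 * F ^ 2 := by
    have h1 : (1 : ℝ) ≤ b ^ 3 := one_le_pow₀ (by linarith)
    have h2 : (1 : ℝ) ≤ F ^ 2 := one_le_pow₀ hFR
    nlinarith
  have hρ0 : 0 < ρ := by
    have : (1 : ℝ) / (4 * b ^ 3 * F ^ 2) < 1 := by
      rw [div_lt_one (by linarith)]
      exact hq1
    rw [hρ]
    linarith
  have hρ1 : ρ < 1 := by
    have : (0 : ℝ) < 1 / (4 * b ^ 3 * F ^ 2) := by positivity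
    rw [hρ]
    linarith
  obtain ⟨l, hl⟩ : ∃ l, l = -Real.log ρ := ⟨_, rfl⟩
  have hl0 : 0 < l := by
    rw [hl]
    linarith [Real.log_neg hρ0 hρ1]
  obtain ⟨c₁, hc₁⟩ : ∃ c₁, c₁ = min 1 (l / 8) := ⟨_, rfl⟩
  have hc0 : 0 < c₁ := by
    rw [hc₁]
    positivity
  have hc1 : c₁ ≤ 1 := by
    rw [hc₁]
    exact min_le_left _ _
  have hcl : c₁ ≤ l / 8 := by
    rw [hc₁]
    exact min_le_right _ _
  obtain ⟨η, hη⟩ : ∃ η, 8 * η = Real.log (1 + 2 * ε / 3) := ⟨Real.log (1 + 2 * ε / 3) / 8, by ring⟩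
  have hη0 : 0 < η := by
    have : 0 < Real.log (1 + 2 * ε / 3) := Real.log_pos (by linarith)
    linarith
  obtain ⟨x, hx⟩ : ∃ x, x = Real.exp (-(2 * η ^ 2)) := ⟨_, rfl⟩
  have hx0 : 0 < x := by rw [hx]; exact Real.exp_pos _
  have hx1 : x < 1 := by
    rw [hx, Real.exp_lt_one_iff]
    have : 0 < 2 * η ^ 2 := by positivity
    linarith
  obtain ⟨c, hc⟩ : ∃ c, c = min (c₁ / 8) (2 * η ^ 2) := ⟨_, rfl⟩
  have hcpos : 0 < c := by
    rw [hc]
    positivity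
  have hc8 : c ≤ c₁ / 8 := by
    rw [hc]
    exact min_le_left _ _
  have hcη : c ≤ 2 * η ^ 2 := by
    rw [hc]
    exact min_le_right _ _
  refine ⟨c, Real.exp (c * (2 / ε + c * (4 / c₁))) + (1 + 2 / (1 - x) + 2 * Real.exp l), hcpos,
    by have : 0 < 1 - x := by linarith
       positivity, fun N K D hD hpar => ?_⟩
  have hE0 := Real.exp_pos (c * (2 / ε + c * (4 / c₁)))
  have hE1 : 0 < 1 + 2 / (1 - x) + 2 * Real.exp l := by
    have : 0 < 1 - x := by linarith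
    positivity
  have hEK := Real.exp_pos (-(c * K))
  have hS0 : (0 : ℝ) ≤ (SS b D N).card := Nat.cast_nonneg _
  by_cases hK : (K : ℝ) ≤ 2 / ε + c * (4 / c₁)
  · -- trivial
    have h1 : (((SS b D N).filter fun n => Odd n ∧ Fails ε K (c * √(N : ℝ)) n).card : ℝ) ≤
        (SS b D N).card := by exact_mod_cast card_filter_le _ _
    refine h1.trans (le_mul_of_one_le_left hS0 ?_)
    have h2 : 1 ≤ Real.exp (c * (2 / ε + c * (4 / c₁))) * Real.exp (-(c * K)) := by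
      rw [← Real.exp_add]
      apply Real.one_le_exp
      have := mul_le_mul_of_nonneg_left hK hcpos.le
      linarith
    nlinarith [mul_pos hE1 hEK]
  push Not at hK
  by_cases hKN : c * √(N : ℝ) < K
  · -- no `k`
    have h1 : (SS b D N).filter (fun n => Odd n ∧ Fails ε K (c * √(N : ℝ)) n) = ∅ := by
      apply filter_false_of_mem
      rintro n - ⟨-, k, hk1, hk2, -⟩
      have : (K : ℝ) ≤ k := by exact_mod_cast hk1
      linarith
    rw [h1, card_empty, Nat.cast_zero]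
    positivity
  push Not at hKN
  have hc4 : 0 < c * (4 / c₁) := by positivity
  have hε2 : 0 < 2 / ε := by positivity
  have hs : 4 / c₁ < √(N : ℝ) := by
    have : c * (4 / c₁) < c * √(N : ℝ) := by linarith
    exact lt_of_mul_lt_mul_left this hcpos.le
  have hs0 : 0 < √(N : ℝ) := lt_trans (by positivity) hs
  have hK2 : 2 / ε ≤ (K : ℝ) := by linarith
  obtain ⟨J₁, hJ₁⟩ : ∃ J₁, J₁ = ⌊c₁ * √(N : ℝ)⌋₊ := ⟨_, rfl⟩
  -- digits of different parity
  have hdig : ∀ i, ∃ u δ, u ∈ D i ∧ u + δ ∈ D i ∧ δ ∣ F := by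
    intro i
    obtain ⟨⟨y, hy, hye⟩, ⟨z, hz, hzo⟩⟩ := hpar i
    rcases lt_or_ge y z with h | h
    · refine ⟨y, z - y, hy, by rwa [Nat.add_sub_cancel' h.le], hFdvd _ ?_ ?_⟩
      · exact Nat.Odd.sub_even h.le hzo hye
      · have := hD i z hz
        omega
    · have h' : z ≤ y := h
      refine ⟨z, y - z, hz, by rwa [Nat.add_sub_cancel' h'], hFdvd _ ?_ ?_⟩
      · exact Nat.Even.sub_odd h' hye hzo
      · have := hD i y hy
        omega
  choose u δ hu hv hδ using hdig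
  have hcard2 : ∀ i, 2 ≤ (D i).card := by
    intro i
    obtain ⟨⟨y, hy, hye⟩, ⟨z, hz, hzo⟩⟩ := hpar i
    have hyz : y ≠ z := by
      rintro rfl
      exact (Nat.not_even_iff_odd.2 hzo) hye
    exact one_lt_card.2 ⟨y, hy, z, hz, hyz⟩
  -- the union
  have hsub : (SS b D N).filter (fun n => Odd n ∧ Fails ε K (c * √(N : ℝ)) n) ⊆
      SS b D (N / 2) ∪ (Icc K J₁).biUnion fun J =>
        (SS b D N).filter fun n => η * J < |(q J n : ℝ) - J / 2| := by
    intro n hn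
    rw [mem_filter] at hn
    rw [mem_union, mem_biUnion]
    rcases bad_sub hb hε hε1 hη hc8 hc0 hc1 hK2 hs hn.1 hn.2.1 hn.2.2 with h | ⟨J, hJ, h1, h2⟩
    · exact Or.inl h
    · rw [← hJ₁] at hJ
      exact Or.inr ⟨J, hJ, mem_filter.2 ⟨h1, h2⟩⟩
  have hcount : (((SS b D N).filter fun n => Odd n ∧ Fails ε K (c * √(N : ℝ)) n).card : ℝ) ≤
      (SS b D (N / 2)).card + ∑ J ∈ Icc K J₁,
        (((SS b D N).filter fun n => η * J < |(q J n : ℝ) - J / 2|).card : ℝ) := by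
    have h1 := (card_le_card hsub).trans ((card_union_le _ _).trans
      (Nat.add_le_add_left card_biUnion_le _))
    exact_mod_cast h1
  -- the integers with leading zeros
  have hsmall : ((SS b D (N / 2)).card : ℝ) ≤ Real.exp (-(c * K)) * (SS b D N).card := by
    have h1 := card_ratio hD hcard2 (Nat.div_le_self N 2)
    have h2 : ((SS b D (N / 2)).card : ℝ) * 2 ^ (N - N / 2) ≤ (SS b D N).card := by exact_mod_cast h1
    have h3 : K ≤ N - N / 2 := by
      have h4 : (K : ℝ) * 2 ≤ N := by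
        have hsq : √(N : ℝ) * √(N : ℝ) = N := Real.mul_self_sqrt (Nat.cast_nonneg _)
        have h5 : c * √(N : ℝ) ≤ 1 / 8 * √(N : ℝ) := mul_le_mul_of_nonneg_right (by linarith) hs0.le
        have h6 : 4 ≤ 4 / c₁ := by
          rw [le_div_iff₀ hc0]
          linarith
        nlinarith
      have h5 : K * 2 ≤ N := by exact_mod_cast h4
      omega
    have h4 : Real.exp (c * K) ≤ 2 ^ (N - N / 2) := by
      have h5 : Real.exp (c * K) ≤ 2 ^ K := by
        rw [mul_comm, Real.exp_nat_mul]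
        refine pow_le_pow_left₀ (Real.exp_pos _).le ?_ K
        have h6 : Real.exp c ≤ Real.exp (Real.log 2) := Real.exp_le_exp.2 (by
          linarith [Real.log_two_gt_d9])
        rwa [Real.exp_log (by norm_num)] at h6
      exact h5.trans (pow_le_pow_right₀ (by norm_num) h3)
    rw [Real.exp_neg, inv_mul_eq_div, le_div_iff₀ (Real.exp_pos _)]
    have h5 : (0 : ℝ) ≤ (SS b D (N / 2)).card := Nat.cast_nonneg _
    have := mul_le_mul_of_nonneg_left h4 h5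
    linarith
  -- one `J`
  have hone : ∀ J ∈ Icc K J₁, (((SS b D N).filter fun n => η * J < |(q J n : ℝ) - J / 2|).card : ℝ) ≤
      (SS b D N).card * (2 * x ^ J + 2 * (Real.exp l * Real.exp (-(3 * √(N : ℝ))))) := by
    intro J hJ
    have h1 := classes (N := N) (J := J) (by omega) hbo hFo hδ hD hu hv
      (fun n => η * J < |(q J n : ℝ) - J / 2|) (fun n hn => by
        change η * J < |(q J (n % 2 ^ J) : ℝ) - J / 2|
        rw [q_mod]
        exact hn)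
    have h2 := few η hη0.le J
    rw [← hρ] at h1
    have h3 : Real.exp (-(2 * η ^ 2 * J)) = x ^ J := by
      rw [hx, ← Real.exp_nat_mul]
      congr 1
      ring
    rw [h3] at h2
    have h4 := pow_rho (N := N) (J := J) hρ0 hρ1.le hl hc0 hc1 hcl hs (by rw [← hJ₁]; exact (mem_Icc.1 hJ).2)
    have h5 : x ^ J ≤ 1 := pow_le_one₀ hx0.le hx1.le
    have h6 : 0 < x ^ J := by positivity
    have h7 : (0 : ℝ) ≤ (SS b D N).card * (1 / 2 ^ J + ρ ^ (N / (J + 1))) := by positivity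
    refine h1.trans ((mul_le_mul_of_nonneg_right h2 h7).trans ?_)
    have h8 : 2 * 2 ^ J * x ^ J * ((SS b D N).card * (1 / 2 ^ J + ρ ^ (N / (J + 1)))) =
        (SS b D N).card * (2 * x ^ J + 2 * x ^ J * (2 ^ J * ρ ^ (N / (J + 1)))) := by
      field_simp
    rw [h8]
    refine mul_le_mul_of_nonneg_left ?_ hS0
    have h9 : 0 ≤ 2 ^ J * ρ ^ (N / (J + 1)) := by positivity
    obtain ⟨Y, hY⟩ : ∃ Y, Y = 2 ^ J * ρ ^ (N / (J + 1)) := ⟨_, rfl⟩
    rw [← hY] at h4 h9 ⊢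
    have h10 := mul_le_mul_of_nonneg_right h5 h9
    linarith
  have hsum := sum_le_sum hone
  rw [← mul_sum, sum_add_distrib, ← mul_sum, sum_const, Nat.card_Icc, nsmul_eq_mul] at hsum
  have hgeom : ∑ J ∈ Icc K J₁, x ^ J ≤ Real.exp (-(c * K)) / (1 - x) := by
    have h1 : Icc K J₁ = Ico K (J₁ + 1) := by
      ext j
      simp only [mem_Icc, mem_Ico]
      omega
    rw [h1]
    refine (geom_sum_Ico_le_of_lt_one hx0.le hx1).trans ?_
    refine div_le_div_of_nonneg_right ?_ (by linarith)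
    rw [hx, ← Real.exp_nat_mul]
    apply Real.exp_le_exp.2
    have := mul_le_mul_of_nonneg_right hcη (Nat.cast_nonneg K : (0 : ℝ) ≤ K)
    linarith
  have htail : ((J₁ + 1 - K : ℕ) : ℝ) * (2 * (Real.exp l * Real.exp (-(3 * √(N : ℝ))))) ≤
      2 * Real.exp l * Real.exp (-(c * K)) := by
    have h1 : ((J₁ + 1 - K : ℕ) : ℝ) ≤ Real.exp √(N : ℝ) := by
      have h2 : ((J₁ + 1 - K : ℕ) : ℝ) ≤ J₁ + 1 := by exact_mod_cast Nat.sub_le _ _
      have h3 : (J₁ : ℝ) ≤ c₁ * √(N : ℝ) := by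
        rw [hJ₁]
        exact Nat.floor_le (by positivity)
      have h4 := Real.add_one_le_exp √(N : ℝ)
      have h5 : c₁ * √(N : ℝ) ≤ 1 * √(N : ℝ) := mul_le_mul_of_nonneg_right hc1 hs0.le
      linarith
    have h2 : Real.exp √(N : ℝ) * Real.exp (-(3 * √(N : ℝ))) ≤ Real.exp (-(c * K)) := by
      rw [← Real.exp_add]
      apply Real.exp_le_exp.2
      have h3 : c * K ≤ 1 * K := mul_le_mul_of_nonneg_right (by linarith) (Nat.cast_nonneg _)
      have h4 : c * √(N : ℝ) ≤ 1 * √(N : ℝ) := mul_le_mul_of_nonneg_right (by linarith) hs0.le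
      linarith
    have hel := Real.exp_pos l
    have he3 := Real.exp_pos (-(3 * √(N : ℝ)))
    calc ((J₁ + 1 - K : ℕ) : ℝ) * (2 * (Real.exp l * Real.exp (-(3 * √(N : ℝ))))) ≤
          Real.exp √(N : ℝ) * (2 * (Real.exp l * Real.exp (-(3 * √(N : ℝ))))) :=
          mul_le_mul_of_nonneg_right h1 (by positivity)
      _ = 2 * Real.exp l * (Real.exp √(N : ℝ) * Real.exp (-(3 * √(N : ℝ)))) := by ring
      _ ≤ _ := mul_le_mul_of_nonneg_left h2 (by positivity)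
  have hfin : (((SS b D N).filter fun n => Odd n ∧ Fails ε K (c * √(N : ℝ)) n).card : ℝ) ≤
      (1 + 2 / (1 - x) + 2 * Real.exp l) * Real.exp (-(c * K)) * (SS b D N).card := by
    have h1 : (SS b D N).card * (2 * ∑ J ∈ Icc K J₁, x ^ J +
        ((J₁ + 1 - K : ℕ) : ℝ) * (2 * (Real.exp l * Real.exp (-(3 * √(N : ℝ)))))) ≤
        (SS b D N).card * (2 * (Real.exp (-(c * K)) / (1 - x)) +
          2 * Real.exp l * Real.exp (-(c * K))) :=
      mul_le_mul_of_nonneg_left (by linarith) hS0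
    calc _ ≤ _ := hcount
      _ ≤ Real.exp (-(c * K)) * (SS b D N).card + (SS b D N).card *
          (2 * (Real.exp (-(c * K)) / (1 - x)) + 2 * Real.exp l * Real.exp (-(c * K))) := by
          linarith
      _ = _ := by ring
  refine hfin.trans ?_
  have h1 : 0 ≤ Real.exp (c * (2 / ε + c * (4 / c₁))) * Real.exp (-(c * K)) * (SS b D N).card := by
    positivity
  nlinarith

end Pool.Agent.L0h78.DG
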