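import Mathlib
import Pool.Agent.L0h78.DG.Thm

/-!
# The first iterates of the `3x+1` map for integers with restricted digits

Let `b ≥ 3` be odd, let `D_0, D_1, …` be sets of digits in base `b`, each with an even and an odd
element, and let `S_N` be the set of the `∏ |D_i|` integers `n < b ^ N` whose `i`-th digit is in `D_i`
for all `i < N` (for instance the integers without the digit `2` in base `3`, or the integers with the
digits `0` and `1` only in a large base `b`; so `S_N` may have only `x ^ α` elements below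
`x = b ^ N` with `α` as small as we like). Let `C(m)` be the odd part of `3 m + 1`.

For every `ε > 0` there are constants `c, A > 0` which depend only on `b` and `ε` such that, for all
`N`, `K` and all digit sets, all the odd `n` in `S_N` up to at most `A exp (- c K) |S_N|` exceptions
satisfy
`n (3/4 - ε) ^ k ≤ C ^ k (n) ≤ n (3/4 + ε) ^ k` for all integers `k` with `K ≤ k ≤ c √N`.

The number `3/4` is the one in the conjecture on the average height: `2 / log (16/9) = 1 / log (4/3)`.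

Proof: `S_N` is equidistributed in the residue classes modulo `2 ^ J` for `J ≤ c √N` (the
exponential sum is a product, and in each window of `J + 1` digits one factor is small); the first
`J` steps of the map `T` (`n / 2` or `(3 n + 1) / 2`) depend only on `n` modulo `2 ^ J`, and the
number of odd terms has the binomial distribution; all `J` between `K` and `c √N` are used.
-/

set_option autoImplicit false

namespace Pool.Agent.L0h78.DG.Collatz

open Finset

/-- `C(m)` is the odd part of `3 m + 1` -/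
def C (m : ℕ) : ℕ := (3 * m + 1) / 2 ^ padicValNat 2 (3 * m + 1)

/-- the integers below `b ^ N` whose `i`-th digit in base `b` is in `D i` for all `i < N` -/
def S (b : ℕ) (D : ℕ → Finset ℕ) (N : ℕ) : Set ℕ := {n | n < b ^ N ∧ ∀ i < N, n / b ^ i % b ∈ D i}

theorem restricted_digits (b : ℕ) (hb : 3 ≤ b) (hbo : Odd b) (ε : ℝ) (hε : 0 < ε) (hε1 : ε ≤ 1 / 4) :
    ∃ c A : ℝ, 0 < c ∧ 0 < A ∧ ∀ (N K : ℕ) (D : ℕ → Finset ℕ), (∀ i, ∀ x ∈ D i, x < b) →
      (∀ i, (∃ x ∈ D i, Even x) ∧ ∃ x ∈ D i, Odd x) →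
      ((S b D N).ncard : ℝ) = ∏ i ∈ range N, ((D i).card : ℝ) ∧
      ({n ∈ S b D N | Odd n ∧ ∃ k : ℕ, K ≤ k ∧ (k : ℝ) ≤ c * √(N : ℝ) ∧
        ¬ ((n : ℝ) * (3 / 4 - ε) ^ k ≤ (C^[k] n : ℝ) ∧
          (C^[k] n : ℝ) ≤ n * (3 / 4 + ε) ^ k)}.ncard : ℝ) ≤
        A * Real.exp (-(c * K)) * ∏ i ∈ range N, ((D i).card : ℝ) := by
  classical
  obtain ⟨c, A, hc, hA, h⟩ := Pool.Agent.L0h78.DG.main b hb hbo ε hε hε1
  refine ⟨c, A, hc, hA, fun N K D hD hpar => ?_⟩
  have hcard : ((Pool.Agent.L0h78.DG.SS b D N).card : ℝ) = ∏ i ∈ range N, ((D i).card : ℝ) := by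
    rw [Pool.Agent.L0h78.DG.card_SS hD]
    push_cast
    rfl
  have hS : S b D N = (Pool.Agent.L0h78.DG.SS b D N : Set ℕ) := by
    ext n
    constructor
    · rintro ⟨h1, h2⟩
      exact mem_coe.2 (Pool.Agent.L0h78.DG.mem_SS (by omega) N n h1 h2)
    · intro hn
      exact ⟨Pool.Agent.L0h78.DG.SS_lt hD N n (mem_coe.1 hn),
        Pool.Agent.L0h78.DG.SS_digit hD N n (mem_coe.1 hn)⟩
  refine ⟨?_, ?_⟩
  · rw [hS, Set.ncard_coe_finset, hcard]
  · rw [← hcard]
    refine le_trans ?_ (h N K D hD hpar)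
    have hsub : {n ∈ S b D N | Odd n ∧ ∃ k : ℕ, K ≤ k ∧ (k : ℝ) ≤ c * √(N : ℝ) ∧
        ¬ ((n : ℝ) * (3 / 4 - ε) ^ k ≤ (C^[k] n : ℝ) ∧
          (C^[k] n : ℝ) ≤ n * (3 / 4 + ε) ^ k)} ⊆
        (((Pool.Agent.L0h78.DG.SS b D N).filter fun n =>
          Odd n ∧ Pool.Agent.L0h78.DG.Fails ε K (c * √(N : ℝ)) n : Finset ℕ) : Set ℕ) := by
      rintro n ⟨h1, h2, h3⟩
      rw [hS] at h1
      exact mem_coe.2 (mem_filter.2 ⟨mem_coe.1 h1, h2, h3⟩)
    have h1 := Set.ncard_le_ncard hsub (Finset.finite_toSet _)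
    rw [Set.ncard_coe_finset] at h1
    exact_mod_cast h1

end Pool.Agent.L0h78.DG.Collatz
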