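import Pool.Agent.L0h78.DG.Main

/-! The first iterates of the `3x+1` map for integers with restricted digits: the theorem. -/

set_option autoImplicit false

namespace Pool.Agent.L0h78.DG

open Finset

/-- the bounds for one iterate -/
lemma bounds {ε η : ℝ} (hε : 0 < ε) (hε1 : ε ≤ 1 / 4) (hη : 8 * η = Real.log (1 + 2 * ε / 3))
    {n k J : ℕ} (hq : q J n = k) (hT : T^[J] n = CC^[k] n)
    (hgood : |(q J n : ℝ) - J / 2| ≤ η * J) (hn : 3 ^ J ≤ n) (hk : 2 / ε ≤ k) :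
    (n : ℝ) * (3 / 4 - ε) ^ k ≤ (CC^[k] n : ℝ) ∧ (CC^[k] n : ℝ) ≤ n * (3 / 4 + ε) ^ k := by
  have hE0 : 0 < 1 + 2 * ε / 3 := by positivity
  have hη1 : η ≤ 1 / 4 := by
    have := Real.log_le_sub_one_of_pos hE0
    linarith
  have hk0 : (0 : ℝ) ≤ k := Nat.cast_nonneg _
  have hJ0 : (0 : ℝ) ≤ J := Nat.cast_nonneg _
  rw [hq] at hgood
  have h1 := abs_le.1 hgood
  have hJ4 : (J : ℝ) ≤ 4 * k := by nlinarith [h1.1]
  have hη0 : 0 ≤ η := by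
    have : 0 ≤ Real.log (1 + 2 * ε / 3) := Real.log_nonneg (by linarith)
    linarith
  have hab : |(J : ℝ) - 2 * k| ≤ k * Real.log (1 + 2 * ε / 3) := by
    rw [← hη, abs_le]
    have : η * J ≤ η * (4 * k) := mul_le_mul_of_nonneg_left hJ4 hη0
    constructor <;> linarith [h1.1, h1.2]
  have hl2 : Real.log 2 ≤ 1 := by linarith [Real.log_two_lt_d9]
  have hl20 : 0 ≤ Real.log 2 := Real.log_nonneg (by norm_num)
  have hab' : |(J : ℝ) - 2 * k| * Real.log 2 ≤ k * Real.log (1 + 2 * ε / 3) :=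
    (mul_le_of_le_one_right (abs_nonneg _) hl2).trans hab
  have hl4 : Real.log 4 = 2 * Real.log 2 := by
    rw [show (4 : ℝ) = 2 ^ 2 by norm_num, Real.log_pow]
    norm_num
  have h4 : (4 : ℝ) ^ k ≤ 2 ^ J * (1 + 2 * ε / 3) ^ k := by
    rw [← Real.log_le_log_iff (by positivity) (by positivity), Real.log_mul (by positivity)
      (by positivity), Real.log_pow, Real.log_pow, Real.log_pow, hl4]
    have := mul_le_mul_of_nonneg_right (neg_abs_le ((J : ℝ) - 2 * k)) hl20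
    linarith
  have h5 : (2 : ℝ) ^ J ≤ 4 ^ k * (1 + 2 * ε / 3) ^ k := by
    rw [← Real.log_le_log_iff (by positivity) (by positivity), Real.log_mul (by positivity)
      (by positivity), Real.log_pow, Real.log_pow, Real.log_pow, hl4]
    have := mul_le_mul_of_nonneg_right (le_abs_self ((J : ℝ) - 2 * k)) hl20
    linarith
  have hn0 : (0 : ℝ) ≤ n := Nat.cast_nonneg _
  have hC0 : (0 : ℝ) ≤ (CC^[k] n : ℕ) := Nat.cast_nonneg _
  have g1 := growth J n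
  have g2 := growth_lower J n
  rw [hq, hT] at g1 g2
  have g1' : (2 : ℝ) ^ J * (CC^[k] n : ℕ) ≤ 2 * 3 ^ k * n := by
    have h6 : (2 : ℝ) ^ J * (CC^[k] n : ℕ) + 2 ^ J ≤ 3 ^ k * n + 3 ^ J := by exact_mod_cast g1
    have h7 : (3 : ℝ) ^ J ≤ n := by exact_mod_cast hn
    have h8 : (0 : ℝ) < 2 ^ J := by positivity
    have h9 : (1 : ℝ) ≤ 3 ^ k := one_le_pow₀ (by norm_num)
    nlinarith
  have g2' : (3 : ℝ) ^ k * n ≤ 2 ^ J * (CC^[k] n : ℕ) := by exact_mod_cast g2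
  constructor
  · -- the lower bound
    have h6 : (3 : ℝ) ^ k * n ≤ (4 ^ k * (1 + 2 * ε / 3) ^ k) * (CC^[k] n : ℕ) :=
      g2'.trans (mul_le_mul_of_nonneg_right h5 hC0)
    have h7 : (3 / 4 - ε) ^ k * (4 ^ k * (1 + 2 * ε / 3) ^ k) ≤ (3 : ℝ) ^ k := by
      rw [← mul_pow, ← mul_pow]
      refine pow_le_pow_left₀ (by
        have : 0 ≤ 3 / 4 - ε := by linarith
        positivity) ?_ k
      nlinarith
    have h8 : (0 : ℝ) < 4 ^ k * (1 + 2 * ε / 3) ^ k := by positivity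
    have h9 : (n : ℝ) * (3 / 4 - ε) ^ k * (4 ^ k * (1 + 2 * ε / 3) ^ k) ≤
        (CC^[k] n : ℕ) * (4 ^ k * (1 + 2 * ε / 3) ^ k) := by
      have := mul_le_mul_of_nonneg_left h7 hn0
      calc (n : ℝ) * (3 / 4 - ε) ^ k * (4 ^ k * (1 + 2 * ε / 3) ^ k)
          = n * ((3 / 4 - ε) ^ k * (4 ^ k * (1 + 2 * ε / 3) ^ k)) := by ring
        _ ≤ n * 3 ^ k := this
        _ = 3 ^ k * n := by ring
        _ ≤ _ := h6
        _ = _ := by ring
    exact le_of_mul_le_mul_right h9 h8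
  · -- the upper bound
    have h6 : (CC^[k] n : ℕ) * (4 : ℝ) ^ k ≤ 2 * n * (3 * (1 + 2 * ε / 3)) ^ k := by
      have h7 : (CC^[k] n : ℕ) * (4 : ℝ) ^ k ≤ (CC^[k] n : ℕ) * (2 ^ J * (1 + 2 * ε / 3) ^ k) :=
        mul_le_mul_of_nonneg_left h4 hC0
      have h8 : (0 : ℝ) ≤ (1 + 2 * ε / 3) ^ k := by positivity
      have h9 := mul_le_mul_of_nonneg_right g1' h8
      rw [mul_pow]
      linarith
    have h7 : 2 * (3 / 4 + ε / 2) ^ k ≤ (3 / 4 + ε) ^ k := by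
      have e : 3 / 4 + ε = (3 / 4 + ε / 2) * (1 + (ε / 2) / (3 / 4 + ε / 2)) := by
        field_simp
        ring
      have h8 : 1 + (k : ℝ) * ((ε / 2) / (3 / 4 + ε / 2)) ≤ (1 + (ε / 2) / (3 / 4 + ε / 2)) ^ k :=
        one_add_mul_le_pow (by
          have : 0 ≤ (ε / 2) / (3 / 4 + ε / 2) := by positivity
          linarith) k
      have h9 : ε / 2 ≤ (ε / 2) / (3 / 4 + ε / 2) := by
        rw [le_div_iff₀ (by positivity)]
        nlinarith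
      have h10 : 1 ≤ (k : ℝ) * ((ε / 2) / (3 / 4 + ε / 2)) := by
        rw [div_le_iff₀ hε] at hk
        nlinarith
      rw [e, mul_pow]
      have h11 : (0 : ℝ) ≤ (3 / 4 + ε / 2) ^ k := by positivity
      nlinarith
    have h8 : (3 * (1 + 2 * ε / 3)) ^ k = (4 : ℝ) ^ k * (3 / 4 + ε / 2) ^ k := by
      rw [← mul_pow]
      congr 1
      ring
    rw [h8] at h6
    have h9 : (0 : ℝ) < 4 ^ k := by positivity
    have h10 := mul_le_mul_of_nonneg_left h7 hn0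
    have h11 : (CC^[k] n : ℕ) * (4 : ℝ) ^ k ≤ (n * (3 / 4 + ε) ^ k) * 4 ^ k := by
      calc (CC^[k] n : ℕ) * (4 : ℝ) ^ k ≤ 2 * n * (4 ^ k * (3 / 4 + ε / 2) ^ k) := h6
        _ = (n * (2 * (3 / 4 + ε / 2) ^ k)) * 4 ^ k := by ring
        _ ≤ _ := mul_le_mul_of_nonneg_right h10 h9.le
    exact le_of_mul_le_mul_right h11 h9

/-- `n` does not satisfy the bounds for some `k` with `K ≤ k ≤ Q` -/
def Fails (ε : ℝ) (K : ℕ) (Q : ℝ) (n : ℕ) : Prop :=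
  ∃ k : ℕ, K ≤ k ∧ (k : ℝ) ≤ Q ∧
    ¬ ((n : ℝ) * (3 / 4 - ε) ^ k ≤ (CC^[k] n : ℝ) ∧ (CC^[k] n : ℝ) ≤ n * (3 / 4 + ε) ^ k)

/-- the bad integers satisfy one of two conditions -/
lemma bad_sub {b : ℕ} {D : ℕ → Finset ℕ} (hb : 3 ≤ b) {ε η c c₁ : ℝ} (hε : 0 < ε)
    (hε1 : ε ≤ 1 / 4) (hη : 8 * η = Real.log (1 + 2 * ε / 3)) (hc : c ≤ c₁ / 8)
    (hc0 : 0 < c₁) (hc1 : c₁ ≤ 1) {N K : ℕ} (hK : 2 / ε ≤ K) (hs : 4 / c₁ < √(N : ℝ)) {n : ℕ}
    (hn : n ∈ SS b D N) (hodd : Odd n) (hf : Fails ε K (c * √(N : ℝ)) n) :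
    n ∈ SS b D (N / 2) ∨
      ∃ J ∈ Icc K ⌊c₁ * √(N : ℝ)⌋₊, n ∈ SS b D N ∧ η * J < |(q J n : ℝ) - J / 2| := by
  obtain ⟨k, hKk, hkQ, hk⟩ := hf
  by_contra hcon
  push Not at hcon
  obtain ⟨h1, h2⟩ := hcon
  have hs0 : 0 < √(N : ℝ) := lt_trans (by positivity) hs
  have hlog1 : 0 ≤ Real.log (1 + 2 * ε / 3) := Real.log_nonneg (by linarith [hε])
  have hη1 : η ≤ 1 / 4 := by
    have := Real.log_le_sub_one_of_pos (show 0 < 1 + 2 * ε / 3 by positivity)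
    linarith
  have h4 : 4 < c₁ * √(N : ℝ) := by
    rw [div_lt_iff₀ hc0] at hs
    linarith
  obtain ⟨J₁, hJ₁⟩ : ∃ J₁, J₁ = ⌊c₁ * √(N : ℝ)⌋₊ := ⟨_, rfl⟩
  rw [← hJ₁] at h2
  have hJle : (J₁ : ℝ) ≤ c₁ * √(N : ℝ) := by
    rw [hJ₁]
    exact Nat.floor_le (by positivity)
  have hJlt : c₁ * √(N : ℝ) < J₁ + 1 := by
    rw [hJ₁]
    exact Nat.lt_floor_add_one _
  have hkJ : (k : ℝ) < J₁ / 4 := by
    have : c * √(N : ℝ) ≤ c₁ / 8 * √(N : ℝ) := mul_le_mul_of_nonneg_right hc hs0.le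
    linarith
  have hKJ : K ≤ J₁ := by
    have h5 : (K : ℝ) ≤ k := by exact_mod_cast hKk
    have h6 : (K : ℝ) ≤ J₁ := by
      have : (0 : ℝ) ≤ J₁ := Nat.cast_nonneg _
      linarith
    exact_mod_cast h6
  have hgood : ∀ J ∈ Icc K J₁, |(q J n : ℝ) - J / 2| ≤ η * J := fun J hJ => h2 J hJ hn
  have h7 := (abs_le.1 (hgood J₁ (mem_Icc.2 ⟨hKJ, le_rfl⟩))).1
  have hkq : k < q J₁ n := by
    have h8 : (k : ℝ) < q J₁ n := by
      have : η * J₁ ≤ 1 / 4 * J₁ := mul_le_mul_of_nonneg_right hη1 (Nat.cast_nonneg _)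
      linarith
    exact_mod_cast h8
  obtain ⟨j, hj, hqj, hTj⟩ := exists_time hodd hkq
  have hjk : k ≤ j := by
    rw [← hqj]
    exact q_le j n
  have hJr : J₁ ≤ N / 2 := by
    rw [Nat.le_div_iff_mul_le (by norm_num)]
    have h9 : (J₁ : ℝ) * 2 ≤ N := by
      have hsq : √(N : ℝ) * √(N : ℝ) = N := Real.mul_self_sqrt (Nat.cast_nonneg _)
      have h10 : c₁ * √(N : ℝ) ≤ 1 * √(N : ℝ) := mul_le_mul_of_nonneg_right hc1 hs0.le
      have h11 : 4 < √(N : ℝ) := by linarith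
      nlinarith
    exact_mod_cast h9
  apply hk
  refine bounds hε hε1 hη hqj hTj (hgood j (mem_Icc.2 ⟨hKk.trans hjk, hj.le⟩)) ?_ ?_
  · have h12 : ¬ n < b ^ (N / 2) := fun h => h1 (mem_small (by omega) (Nat.div_le_self _ _) n hn h)
    calc 3 ^ j ≤ 3 ^ (N / 2) := Nat.pow_le_pow_right (by norm_num) (by omega)
      _ ≤ b ^ (N / 2) := Nat.pow_le_pow_left hb _
      _ ≤ n := by omega
  · have : (K : ℝ) ≤ k := by exact_mod_cast hKk
    linarith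

end Pool.Agent.L0h78.DG
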