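import Mathlib

/-! Integers with restricted digits in residue classes. -/

set_option autoImplicit false

namespace Pool.Agent.L0h78.DG

open Finset

/-- the integers below `b ^ N` with the `i`-th digit in `D i` -/
def SS (b : ℕ) (D : ℕ → Finset ℕ) : ℕ → Finset ℕ
  | 0 => {0}
  | N + 1 => (SS b D N ×ˢ D N).image fun p => p.1 + p.2 * b ^ N

section

variable {b : ℕ} {D : ℕ → Finset ℕ}

lemma SS_lt (hD : ∀ i, ∀ x ∈ D i, x < b) : ∀ N, ∀ n ∈ SS b D N, n < b ^ N := by
  intro N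
  induction N with
  | zero =>
    intro n hn
    rw [SS, mem_singleton] at hn
    rw [hn]
    norm_num
  | succ N ih =>
    intro n hn
    rw [SS, mem_image] at hn
    obtain ⟨p, hp, rfl⟩ := hn
    rw [mem_product] at hp
    have h1 := ih _ hp.1
    have h2 := hD N _ hp.2
    calc p.1 + p.2 * b ^ N < b ^ N + p.2 * b ^ N := by omega
      _ = (p.2 + 1) * b ^ N := by ring
      _ ≤ b * b ^ N := Nat.mul_le_mul_right _ h2
      _ = b ^ (N + 1) := by ring

lemma inj (hD : ∀ i, ∀ x ∈ D i, x < b) (N : ℕ) :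
    Set.InjOn (fun p : ℕ × ℕ => p.1 + p.2 * b ^ N) (SS b D N ×ˢ D N : Finset (ℕ × ℕ)) := by
  intro p hp q hq h
  rw [mem_coe, mem_product] at hp hq
  have h1 := SS_lt hD N _ hp.1
  have h2 := SS_lt hD N _ hq.1
  have h3 : p.1 + p.2 * b ^ N = q.1 + q.2 * b ^ N := h
  have h4 : p.1 = q.1 := by
    have h5 := congrArg (· % b ^ N) h3
    simp only [Nat.add_mul_mod_self_right] at h5
    rwa [Nat.mod_eq_of_lt h1, Nat.mod_eq_of_lt h2] at h5
  have h6 : p.2 * b ^ N = q.2 * b ^ N := by omega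
  have h7 : p.2 = q.2 := Nat.eq_of_mul_eq_mul_right (by omega) h6
  exact Prod.ext h4 h7

lemma sum_SS {M : Type} [AddCommMonoid M] (hD : ∀ i, ∀ x ∈ D i, x < b) (N : ℕ) (f : ℕ → M) :
    ∑ n ∈ SS b D (N + 1), f n = ∑ n ∈ SS b D N, ∑ d ∈ D N, f (n + d * b ^ N) := by
  rw [SS, sum_image (inj hD N), sum_product]

lemma card_SS (hD : ∀ i, ∀ x ∈ D i, x < b) (N : ℕ) :
    (SS b D N).card = ∏ i ∈ range N, (D i).card := by
  induction N with
  | zero => simp [SS]
  | succ N ih => rw [SS, card_image_of_injOn (inj hD N), card_product, ih, prod_range_succ]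

/-- the integers with the digits in `D i` are in `SS` -/
lemma mem_SS (hb : 1 ≤ b) : ∀ N n : ℕ, n < b ^ N → (∀ i < N, n / b ^ i % b ∈ D i) →
    n ∈ SS b D N := by
  intro N
  induction N with
  | zero =>
    intro n hn _
    rw [pow_zero] at hn
    rw [SS, mem_singleton]
    omega
  | succ N ih =>
    intro n hn hd
    rw [SS, mem_image]
    refine ⟨(n % b ^ N, n / b ^ N), ?_, ?_⟩
    · rw [mem_product]
      constructor
      · refine ih _ (Nat.mod_lt _ (by positivity)) fun i hi => ?_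
        have e : b ^ N = b ^ i * b ^ (N - i) := by
          rw [← pow_add]
          congr 1
          omega
        have h1 : n % b ^ N / b ^ i % b = n / b ^ i % b := by
          rw [e, Nat.mod_mul_right_div_self, Nat.mod_mod_of_dvd _ (dvd_pow_self b (by omega))]
        change n % b ^ N / b ^ i % b ∈ D i
        rw [h1]
        exact hd i (by omega)
      · have h1 : n / b ^ N < b := by
          rw [Nat.div_lt_iff_lt_mul (by positivity)]
          rw [pow_succ] at hn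
          linarith
        have h2 := hd N (by omega)
        rwa [Nat.mod_eq_of_lt h1] at h2
    · change n % b ^ N + n / b ^ N * b ^ N = n
      rw [mul_comm]
      exact Nat.mod_add_div n (b ^ N)

/-- the digits of the elements of `SS` -/
lemma SS_digit (hD : ∀ i, ∀ x ∈ D i, x < b) : ∀ N, ∀ n ∈ SS b D N, ∀ i < N, n / b ^ i % b ∈ D i := by
  intro N
  induction N with
  | zero => intro n _ i hi; omega
  | succ N ih =>
    intro n hn i hi
    rw [SS, mem_image] at hn
    obtain ⟨p, hp, rfl⟩ := hn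
    rw [mem_product] at hp
    have h1 := SS_lt hD N _ hp.1
    have h2 := hD N _ hp.2
    have hb : 0 < b := by omega
    change (p.1 + p.2 * b ^ N) / b ^ i % b ∈ D i
    rcases Nat.lt_succ_iff_lt_or_eq.1 hi with h | h
    · have e : b ^ N = b ^ i * (b * b ^ (N - i - 1)) := by
        rw [← pow_succ', ← pow_add]
        congr 1
        omega
      have e2 : p.1 + p.2 * b ^ N = p.1 + b ^ i * (b * (b ^ (N - i - 1) * p.2)) := by
        rw [e]
        ring
      rw [e2, Nat.add_mul_div_left _ _ (by positivity), Nat.add_mul_mod_self_left]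
      exact ih _ hp.1 i h
    · subst h
      rw [Nat.add_mul_div_right _ _ (by positivity), Nat.div_eq_of_lt h1, zero_add,
        Nat.mod_eq_of_lt h2]
      exact hp.2

/-- the exponential sum is a product -/
lemma prod_SS (hD : ∀ i, ∀ x ∈ D i, x < b) {m : ℕ} (ψ : AddChar (ZMod m) ℂ) (y : ZMod m) (N : ℕ) :
    ∑ n ∈ SS b D N, ψ (y * (n : ZMod m)) =
      ∏ i ∈ range N, ∑ d ∈ D i, ψ (y * (b : ZMod m) ^ i * (d : ZMod m)) := by
  induction N with
  | zero => simp [SS]
  | succ N ih =>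
    rw [sum_SS hD, prod_range_succ, ← ih, sum_mul]
    refine sum_congr rfl fun n _ => ?_
    rw [mul_sum]
    refine sum_congr rfl fun d _ => ?_
    rw [← AddChar.map_add_eq_mul]
    congr 1
    push_cast
    ring

end

/-- powers of numbers on the unit circle -/
lemma pow_sub_one {w : ℂ} (hw : ‖w‖ = 1) (n : ℕ) : ‖w ^ n - 1‖ ≤ n * ‖w - 1‖ := by
  induction n with
  | zero => simp
  | succ n ih =>
    have e : w ^ (n + 1) - 1 = w ^ n * (w - 1) + (w ^ n - 1) := by ring
    rw [e]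
    refine (norm_add_le _ _).trans ?_
    rw [norm_mul, norm_pow, hw, one_pow, one_mul]
    push_cast
    linarith

lemma one_add_le {w : ℂ} (hw : ‖w‖ = 1) {η : ℝ} (h0 : 0 ≤ η) (h : η ≤ ‖w - 1‖) :
    ‖1 + w‖ ≤ 2 - η ^ 2 / 4 := by
  have h1 : ‖w - 1‖ ≤ 2 := by
    refine (norm_sub_le _ _).trans ?_
    rw [hw, norm_one]
    norm_num
  have h2 := parallelogram_law_with_norm ℝ (1 : ℂ) w
  rw [hw, norm_one, norm_sub_rev] at h2
  have h3 : ‖1 + w‖ ^ 2 ≤ (2 - η ^ 2 / 4) ^ 2 := by nlinarith [sq_nonneg (η ^ 2 / 4)]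
  have h4 : 0 ≤ 2 - η ^ 2 / 4 := by nlinarith
  exact le_of_sq_le_sq h3 h4 

section

variable {m : ℕ} [NeZero m]

lemma small {z : ZMod m} {ε : ℝ} (h : ‖ZMod.stdAddChar z - 1‖ ≤ ε) :
    4 * |(z.valMinAbs : ℝ)| ≤ m * ε := by
  have hm : (0 : ℝ) < m := by exact_mod_cast NeZero.pos m
  obtain ⟨j, hj⟩ : ∃ j, j = z.valMinAbs := ⟨_, rfl⟩
  have hz : z = (j : ZMod m) := by rw [hj, ZMod.coe_valMinAbs]
  have h1 := ZMod.valMinAbs_mem_Ioc z
  rw [← hj] at h1 ⊢
  have hjm : |(j : ℝ)| * 2 ≤ m := by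
    have h2 : |j| * 2 ≤ m := by
      rcases abs_cases j with h | h <;> rw [h.1] <;> [exact h1.2; linarith [h1.1]]
    exact_mod_cast h2
  rw [hz, ZMod.stdAddChar_coe] at h
  have e : (2 * Real.pi * Complex.I * j / m : ℂ) = Complex.I * ((2 * Real.pi * j / m : ℝ) : ℂ) := by
    push_cast
    ring
  rw [e, Complex.norm_exp_I_mul_ofReal_sub_one, norm_mul, Real.norm_eq_abs, Real.norm_eq_abs] at h
  have e2 : 2 * Real.pi * j / m / 2 = Real.pi * (j / m) := by ring
  rw [e2, abs_of_pos (by norm_num : (0 : ℝ) < 2)] at h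
  have h3 : 2 * |(j : ℝ) / m| ≤ |Real.sin (Real.pi * (j / m))| := by
    have h4 : |Real.sin (Real.pi * (j / m))| = |Real.sin (Real.pi * |(j : ℝ) / m|)| := by
      rcases abs_cases ((j : ℝ) / m) with h | h
      · rw [h.1]
      · rw [h.1, mul_neg, Real.sin_neg, abs_neg]
    rw [h4]
    have h5 : |(j : ℝ) / m| ≤ 1 / 2 := by
      rw [abs_div, abs_of_pos hm, div_le_iff₀ hm]
      linarith
    have h6 := Real.mul_le_sin (x := Real.pi * |(j : ℝ) / m|) (by positivity) (by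
      nlinarith [Real.pi_pos])
    refine le_trans (le_of_eq ?_) (h6.trans (le_abs_self _))
    field_simp
  have h7 : 4 * |(j : ℝ) / m| ≤ ε := by linarith
  rw [abs_div, abs_of_pos hm] at h7
  rw [mul_div_assoc', div_le_iff₀ hm] at h7
  linarith

/-- every window contains a good position -/
lemma window {b F L : ℕ} {δ : ℕ → ℕ} (hb : 2 ≤ b) (hF : 1 ≤ F) (hbm : b.Coprime m)
    (hFm : F.Coprime m) (hδ : ∀ i, δ i ∣ F) (hL : m ≤ b ^ L) {y : ZMod m} (hy : y ≠ 0) (i₀ : ℕ) :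
    ∃ j < L + 1, 1 / ((b : ℝ) * F) ≤
      ‖ZMod.stdAddChar (y * (b : ZMod m) ^ (i₀ + j) * (δ (i₀ + j) : ZMod m)) - 1‖ := by
  by_contra hcon
  push Not at hcon
  have hb0 : (0 : ℝ) < b := by positivity
  have hF0 : (0 : ℝ) < F := by positivity
  have hm : (0 : ℝ) < m := by exact_mod_cast NeZero.pos m
  have key : ∀ j < L + 1, 4 * |((y * (b : ZMod m) ^ (i₀ + j) * (F : ZMod m)).valMinAbs : ℝ)| ≤
      m * (1 / b) := by
    intro j hj
    apply small
    obtain ⟨e, he⟩ := hδ (i₀ + j)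
    have h1 : y * (b : ZMod m) ^ (i₀ + j) * (F : ZMod m) =
        e • (y * (b : ZMod m) ^ (i₀ + j) * (δ (i₀ + j) : ZMod m)) := by
      rw [he, nsmul_eq_mul]
      push_cast
      ring
    rw [h1, AddChar.map_nsmul_eq_pow]
    refine (pow_sub_one (AddChar.norm_apply _ _) e).trans ?_
    have h2 := (hcon j hj).le
    have he0 : (e : ℝ) ≤ F := by
      have : e ≤ F := Nat.le_of_dvd hF ⟨δ (i₀ + j), by rw [he]; ring⟩
      exact_mod_cast this
    calc (e : ℝ) * ‖_‖ ≤ F * (1 / ((b : ℝ) * F)) :=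
          mul_le_mul he0 h2 (norm_nonneg _) hF0.le
      _ = 1 / b := by field_simp
  have grow : ∀ j < L + 1, (y * (b : ZMod m) ^ (i₀ + j) * (F : ZMod m)).valMinAbs =
      (b : ℤ) ^ j * (y * (b : ZMod m) ^ i₀ * (F : ZMod m)).valMinAbs := by
    intro j
    induction j with
    | zero =>
      intro _
      rw [add_zero, pow_zero, one_mul]
    | succ j ih =>
      intro hj
      have h1 := ih (by omega)
      have h2 := key j (by omega)
      rw [ZMod.valMinAbs_spec]
      constructor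
      · push_cast
        ring
      · have h3 : |((b : ℝ) * (y * (b : ZMod m) ^ (i₀ + j) * (F : ZMod m)).valMinAbs)| * 2 < m := by
          rw [abs_mul, abs_of_pos hb0]
          have h4 := mul_le_mul_of_nonneg_left h2 hb0.le
          have h5 : (b : ℝ) * (m * (1 / b)) = m := by field_simp
          rw [h5] at h4
          nlinarith
        rw [h1] at h3
        have h6 : |(b : ℤ) ^ (j + 1) * (y * (b : ZMod m) ^ i₀ * (F : ZMod m)).valMinAbs| * 2 < m := by
          have : ((|(b : ℤ) ^ (j + 1) * (y * (b : ZMod m) ^ i₀ * (F : ZMod m)).valMinAbs| * 2 : ℤ) : ℝ)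
              < m := by
            push_cast
            push_cast at h3
            rw [pow_succ]
            refine lt_of_le_of_lt (le_of_eq ?_) h3
            congr 2
            ring
          exact_mod_cast this
        constructor
        · linarith [neg_abs_le ((b : ℤ) ^ (j + 1) * (y * (b : ZMod m) ^ i₀ * (F : ZMod m)).valMinAbs)]
        · linarith [le_abs_self ((b : ℤ) ^ (j + 1) * (y * (b : ZMod m) ^ i₀ * (F : ZMod m)).valMinAbs)]
  have hne : (y * (b : ZMod m) ^ i₀ * (F : ZMod m)).valMinAbs ≠ 0 := by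
    rw [Ne, ZMod.valMinAbs_eq_zero]
    intro h0
    have u1 : IsUnit (F : ZMod m) := (ZMod.isUnit_iff_coprime F m).2 hFm
    have u2 : IsUnit ((b : ZMod m) ^ i₀) := ((ZMod.isUnit_iff_coprime b m).2 hbm).pow _
    rw [u1.mul_left_eq_zero, u2.mul_left_eq_zero] at h0
    exact hy h0
  have h1 := key L (by omega)
  rw [grow L (by omega)] at h1
  have h2 : (1 : ℝ) ≤ |((y * (b : ZMod m) ^ i₀ * (F : ZMod m)).valMinAbs : ℝ)| := by
    exact_mod_cast Int.one_le_abs hne
  have h3 : (m : ℝ) ≤ (b : ℝ) ^ L := by exact_mod_cast hL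
  push_cast at h1
  rw [abs_mul, abs_of_pos (by positivity)] at h1
  have h4 : (m : ℝ) * (1 / b) ≤ m := by
    have : (1 : ℝ) / b ≤ 1 := by
      rw [div_le_one hb0]
      have : (2 : ℝ) ≤ b := by exact_mod_cast hb
      linarith
    nlinarith
  nlinarith

/-- one factor -/
lemma factor {b : ℕ} {D : Finset ℕ} (hb : 1 ≤ b) (hD : ∀ x ∈ D, x < b) {u v δ : ℕ} (hu : u ∈ D)
    (hv : v ∈ D) (hδ : v = u + δ) (hδ0 : δ ≠ 0) (z : ZMod m) {η : ℝ} (h0 : 0 ≤ η)
    (h : η ≤ ‖ZMod.stdAddChar (z * (δ : ZMod m)) - 1‖) :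
    ‖∑ d ∈ D, ZMod.stdAddChar (z * (d : ZMod m))‖ ≤ D.card * (1 - η ^ 2 / (4 * b)) := by
  have huv : u ≠ v := by omega
  have hb0 : (0 : ℝ) < b := by exact_mod_cast hb
  have hcard : (D.card : ℝ) ≤ b := by
    have h1 : D ⊆ range b := fun x hx => mem_range.2 (hD x hx)
    have h2 := card_le_card h1
    rw [card_range] at h2
    exact_mod_cast h2
  have hv' : v ∈ D.erase u := mem_erase.2 ⟨huv.symm, hv⟩
  rw [← add_sum_erase D _ hu, ← add_sum_erase (D.erase u) _ hv', ← add_assoc]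
  have h1 : ‖(ZMod.stdAddChar (z * (u : ZMod m)) + ZMod.stdAddChar (z * (v : ZMod m)) : ℂ)‖ ≤
      2 - η ^ 2 / 4 := by
    have e : (ZMod.stdAddChar (z * (u : ZMod m)) + ZMod.stdAddChar (z * (v : ZMod m)) : ℂ) =
        ZMod.stdAddChar (z * (u : ZMod m)) * (1 + ZMod.stdAddChar (z * (δ : ZMod m))) := by
      rw [mul_add, mul_one, ← AddChar.map_add_eq_mul, hδ]
      congr 2
      push_cast
      ring
    rw [e, norm_mul, AddChar.norm_apply, one_mul]
    exact one_add_le (AddChar.norm_apply _ _) h0 h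
  have h2 : ‖∑ d ∈ (D.erase u).erase v, (ZMod.stdAddChar (z * (d : ZMod m)) : ℂ)‖ ≤ D.card - 2 := by
    refine (norm_sum_le _ _).trans ?_
    rw [sum_congr rfl fun d _ => AddChar.norm_apply _ _, sum_const, nsmul_eq_mul, mul_one,
      card_erase_of_mem hv', card_erase_of_mem hu]
    have h3 : 2 ≤ D.card := by
      have h4 : 0 < ((D.erase u).erase v).card + 1 := by omega
      have h5 := card_erase_of_mem hv'
      have h6 := card_erase_of_mem hu
      have h7 : 0 < (D.erase u).card := card_pos.2 ⟨v, hv'⟩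
      omega
    have h4 : D.card - 1 - 1 = D.card - 2 := by omega
    rw [h4, Nat.cast_sub h3]
    norm_num
  refine (norm_add_le _ _).trans ?_
  have h3 : (D.card : ℝ) * (η ^ 2 / (4 * b)) ≤ η ^ 2 / 4 := by
    calc (D.card : ℝ) * (η ^ 2 / (4 * b)) ≤ b * (η ^ 2 / (4 * b)) :=
          mul_le_mul_of_nonneg_right hcard (by positivity)
      _ = η ^ 2 / 4 := by field_simp
  linarith

lemma prod_windows {g : ℕ → ℝ} (h0 : ∀ i, 0 ≤ g i) (h1 : ∀ i, g i ≤ 1) {ρ : ℝ} (hρ : 0 ≤ ρ) {L : ℕ}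
    (hw : ∀ i₀, ∃ j < L + 1, g (i₀ + j) ≤ ρ) (w : ℕ) :
    ∏ i ∈ range (w * (L + 1)), g i ≤ ρ ^ w := by
  induction w with
  | zero => simp
  | succ w ih =>
    rw [show (w + 1) * (L + 1) = w * (L + 1) + (L + 1) by ring, prod_range_add, pow_succ]
    refine mul_le_mul ih ?_ (prod_nonneg fun i _ => h0 _) (by positivity)
    obtain ⟨j, hj, hg⟩ := hw (w * (L + 1))
    rw [← mul_prod_erase (range (L + 1)) _ (mem_range.2 hj)]
    calc g (w * (L + 1) + j) * ∏ x ∈ (range (L + 1)).erase j, g (w * (L + 1) + x) ≤ ρ * 1 :=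
          mul_le_mul hg (prod_le_one (fun i _ => h0 _) fun i _ => h1 _)
            (prod_nonneg fun i _ => h0 _) hρ
      _ = ρ := mul_one ρ

lemma prod_windows' {g : ℕ → ℝ} (h0 : ∀ i, 0 ≤ g i) (h1 : ∀ i, g i ≤ 1) {ρ : ℝ} (hρ : 0 ≤ ρ)
    {L : ℕ} (hw : ∀ i₀, ∃ j < L + 1, g (i₀ + j) ≤ ρ) (N : ℕ) :
    ∏ i ∈ range N, g i ≤ ρ ^ (N / (L + 1)) := by
  have h2 := prod_windows h0 h1 hρ hw (N / (L + 1))
  have h3 : N = N / (L + 1) * (L + 1) + N % (L + 1) := (Nat.div_add_mod' N (L + 1)).symm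
  nth_rw 1 [h3]
  rw [prod_range_add]
  calc (∏ i ∈ range (N / (L + 1) * (L + 1)), g i) *
        ∏ x ∈ range (N % (L + 1)), g (N / (L + 1) * (L + 1) + x) ≤ ρ ^ (N / (L + 1)) * 1 :=
        mul_le_mul h2 (prod_le_one (fun i _ => h0 _) fun i _ => h1 _)
          (prod_nonneg fun i _ => h0 _) (by positivity)
    _ = _ := mul_one _

/-- **Equidistribution in residue classes.** -/
theorem equi {b F L : ℕ} {D : ℕ → Finset ℕ} {δ u : ℕ → ℕ} (hb : 2 ≤ b) (hF : 1 ≤ F)
    (hbm : b.Coprime m) (hFm : F.Coprime m) (hδ : ∀ i, δ i ∣ F) (hD : ∀ i, ∀ x ∈ D i, x < b)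
    (hu : ∀ i, u i ∈ D i) (hv : ∀ i, u i + δ i ∈ D i) (hL : m ≤ b ^ L) (a : ZMod m) (N : ℕ) :
    (((SS b D N).filter fun n => ((n : ℕ) : ZMod m) = a).card : ℝ) ≤
      (SS b D N).card * (1 / m + (1 - 1 / (4 * b ^ 3 * F ^ 2)) ^ (N / (L + 1))) := by
  classical
  have hb0 : (0 : ℝ) < b := by positivity
  have hF0 : (0 : ℝ) < F := by positivity
  have hm : (0 : ℝ) < m := by exact_mod_cast NeZero.pos m
  obtain ⟨ρ, hρ⟩ : ∃ ρ : ℝ, ρ = 1 - 1 / (4 * b ^ 3 * F ^ 2) := ⟨_, rfl⟩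
  have hδ0 : ∀ i, δ i ≠ 0 := fun i h => by
    have := hδ i
    rw [h, zero_dvd_iff] at this
    omega
  have hρ0 : 0 ≤ ρ := by
    have hb1 : (1 : ℝ) ≤ b := by exact_mod_cast (by omega : 1 ≤ b)
    have hF1 : (1 : ℝ) ≤ F := by exact_mod_cast hF
    have : (1 : ℝ) / (4 * b ^ 3 * F ^ 2) ≤ 1 := by
      rw [div_le_one (by positivity)]
      have h1 : (1 : ℝ) ≤ b ^ 3 := one_le_pow₀ hb1
      have h2 : (1 : ℝ) ≤ F ^ 2 := one_le_pow₀ hF1
      nlinarith
    rw [hρ]
    linarith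
  rw [← hρ]
  have hc0 : ∀ i, (0 : ℝ) < (D i).card := fun i => by
    exact_mod_cast card_pos.2 ⟨_, hu i⟩
  have hprod : ((SS b D N).card : ℝ) = ∏ i ∈ range N, ((D i).card : ℝ) := by
    rw [card_SS hD]
    push_cast
    rfl
  -- the exponential sums
  have hexp : ∀ y : ZMod m, y ≠ 0 →
      ‖∑ n ∈ SS b D N, (ZMod.stdAddChar (y * (n : ZMod m)) : ℂ)‖ ≤
        (SS b D N).card * ρ ^ (N / (L + 1)) := by
    intro y hy
    rw [prod_SS hD, norm_prod]
    obtain ⟨g, hg⟩ : ∃ g : ℕ → ℝ, g = fun i =>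
      ‖∑ d ∈ D i, (ZMod.stdAddChar (y * (b : ZMod m) ^ i * (d : ZMod m)) : ℂ)‖ / (D i).card :=
      ⟨_, rfl⟩
    have h1 : ∏ i ∈ range N, ‖∑ d ∈ D i, (ZMod.stdAddChar (y * (b : ZMod m) ^ i * (d : ZMod m)) : ℂ)‖ =
        (∏ i ∈ range N, ((D i).card : ℝ)) * ∏ i ∈ range N, g i := by
      rw [← prod_mul_distrib]
      refine prod_congr rfl fun i _ => ?_
      rw [hg]
      field_simp [(hc0 i).ne']
    rw [h1, ← hprod]
    refine mul_le_mul_of_nonneg_left ?_ (Nat.cast_nonneg _)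
    refine prod_windows' (fun i => ?_) (fun i => ?_) hρ0 (fun i₀ => ?_) N
    · rw [hg]
      positivity
    · rw [hg]
      change _ / _ ≤ _
      rw [div_le_one (hc0 i)]
      refine (norm_sum_le _ _).trans (le_of_eq ?_)
      rw [sum_congr rfl fun d _ => AddChar.norm_apply _ _, sum_const, nsmul_eq_mul, mul_one]
    · obtain ⟨j, hj, h2⟩ := window hb hF hbm hFm hδ hL hy i₀
      refine ⟨j, hj, ?_⟩
      rw [hg]
      change _ / _ ≤ _
      rw [div_le_iff₀ (hc0 _)]
      have h3 := factor (by omega) (hD (i₀ + j)) (hu (i₀ + j)) (hv (i₀ + j)) rfl (hδ0 (i₀ + j))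
        (y * (b : ZMod m) ^ (i₀ + j)) (by positivity) h2
      refine h3.trans (le_of_eq ?_)
      rw [hρ, mul_comm]
      congr 2
      field_simp
  -- orthogonality
  have horth : (m : ℂ) * (((SS b D N).filter fun n => ((n : ℕ) : ZMod m) = a).card : ℂ) =
      ∑ y : ZMod m, ZMod.stdAddChar (-(y * a)) *
        ∑ n ∈ SS b D N, (ZMod.stdAddChar (y * (n : ZMod m)) : ℂ) := by
    have h1 : ∀ n : ℕ, ∑ y : ZMod m, (ZMod.stdAddChar (y * ((n : ZMod m) - a)) : ℂ) =
        if (n : ZMod m) = a then (m : ℂ) else 0 := by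
      intro n
      rw [AddChar.sum_mulShift _ (ZMod.isPrimitive_stdAddChar m)]
      simp only [sub_eq_zero, ZMod.card]
      split_ifs <;> simp
    calc (m : ℂ) * (((SS b D N).filter fun n => ((n : ℕ) : ZMod m) = a).card : ℂ)
        = ∑ n ∈ SS b D N, (if (n : ZMod m) = a then (m : ℂ) else 0) := by
          rw [← sum_filter, sum_const, nsmul_eq_mul, mul_comm]
      _ = ∑ n ∈ SS b D N, ∑ y : ZMod m, (ZMod.stdAddChar (y * ((n : ZMod m) - a)) : ℂ) :=
          sum_congr rfl fun n _ => (h1 n).symm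
      _ = ∑ y : ZMod m, ∑ n ∈ SS b D N, (ZMod.stdAddChar (y * ((n : ZMod m) - a)) : ℂ) := sum_comm
      _ = _ := by
          refine sum_congr rfl fun y _ => ?_
          rw [mul_sum]
          refine sum_congr rfl fun n _ => ?_
          rw [← AddChar.map_add_eq_mul]
          congr 1
          ring
  have hfin : (m : ℝ) * (((SS b D N).filter fun n => ((n : ℕ) : ZMod m) = a).card : ℝ) ≤
      (SS b D N).card + m * ((SS b D N).card * ρ ^ (N / (L + 1))) := by
    have h1 : ‖(m : ℂ) * (((SS b D N).filter fun n => ((n : ℕ) : ZMod m) = a).card : ℂ)‖ =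
        (m : ℝ) * (((SS b D N).filter fun n => ((n : ℕ) : ZMod m) = a).card : ℝ) := by
      rw [norm_mul, Complex.norm_natCast, Complex.norm_natCast]
    rw [← h1, horth]
    refine (norm_sum_le _ _).trans ?_
    rw [← add_sum_erase univ _ (mem_univ (0 : ZMod m))]
    refine add_le_add ?_ ?_
    · rw [norm_mul, AddChar.norm_apply, one_mul]
      refine (norm_sum_le _ _).trans (le_of_eq ?_)
      rw [sum_congr rfl fun d _ => AddChar.norm_apply _ _, sum_const, nsmul_eq_mul, mul_one]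
    · refine (sum_le_card_nsmul _ _ ((SS b D N).card * ρ ^ (N / (L + 1))) fun y hy => ?_).trans ?_
      · rw [norm_mul, AddChar.norm_apply, one_mul]
        exact hexp y (ne_of_mem_erase hy)
      · rw [nsmul_eq_mul]
        refine mul_le_mul_of_nonneg_right ?_ (by positivity)
        have h2 := card_erase_le (s := (univ : Finset (ZMod m))) (a := 0)
        rw [card_univ, ZMod.card] at h2
        exact_mod_cast h2
  have hS : (0 : ℝ) ≤ (SS b D N).card := Nat.cast_nonneg _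
  rw [← mul_le_mul_iff_right₀ hm]
  refine hfin.trans (le_of_eq ?_)
  field_simp

end

end Pool.Agent.L0h78.DG
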