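import Mathlib

/-! The `3x+1` map: the number of odd terms. -/

set_option autoImplicit false

namespace Pool.Agent.L0h78.DG

open Finset

/-- the map `n / 2`, `(3 n + 1) / 2` -/
def T (n : ℕ) : ℕ := if n % 2 = 0 then n / 2 else (3 * n + 1) / 2

/-- the number of the odd terms among `n, T n, ..., T ^ (J-1) n` -/
def q : ℕ → ℕ → ℕ
  | 0, _ => 0
  | J + 1, n => n % 2 + q J (T n)

/-- the map on the odd integers -/
def CC (m : ℕ) : ℕ := (3 * m + 1) / 2 ^ padicValNat 2 (3 * m + 1)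

lemma T_even (n : ℕ) : T (2 * n) = n := by
  unfold T
  rw [if_pos (by omega)]
  omega

lemma T_odd (n : ℕ) : T (2 * n + 1) = 3 * n + 2 := by
  unfold T
  rw [if_neg (by omega)]
  omega

lemma q_le (J : ℕ) : ∀ n, q J n ≤ J := by
  induction J with
  | zero => intro n; exact le_rfl
  | succ J ih =>
    intro n
    have := ih (T n)
    rw [q]
    omega

lemma q_period (J : ℕ) : ∀ n k, q J (n + 2 ^ J * k) = q J n := by
  induction J with
  | zero => intro n k; rfl
  | succ J ih =>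
    intro n k
    rcases Nat.even_or_odd' n with ⟨m, rfl | rfl⟩
    · have e : 2 * m + 2 ^ (J + 1) * k = 2 * (m + 2 ^ J * k) := by ring
      rw [q, q, e, T_even, T_even, ih]
      omega
    · have e : 2 * m + 1 + 2 ^ (J + 1) * k = 2 * (m + 2 ^ J * k) + 1 := by ring
      have e2 : 3 * (m + 2 ^ J * k) + 2 = (3 * m + 2) + 2 ^ J * (3 * k) := by ring
      rw [q, q, e, T_odd, T_odd, e2, ih]
      omega

lemma q_mod (J n : ℕ) : q J (n % 2 ^ J) = q J n := by
  conv_rhs => rw [← Nat.mod_add_div n (2 ^ J)]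
  rw [q_period]

lemma sum_two (f : ℕ → ℝ) (M : ℕ) :
    ∑ n ∈ range (2 * M), f n = ∑ k ∈ range M, (f (2 * k) + f (2 * k + 1)) := by
  induction M with
  | zero => simp
  | succ M ih =>
    rw [show 2 * (M + 1) = 2 * M + 1 + 1 by ring, sum_range_succ, sum_range_succ, ih,
      sum_range_succ]
    ring

lemma sum_perm (g : ℕ → ℝ) {M : ℕ} (hM : 0 < M) (h3 : Nat.Coprime M 3)
    (hg : ∀ n, g (n % M) = g n) : ∑ k ∈ range M, g (3 * k + 2) = ∑ k ∈ range M, g k := by
  have hinj : Set.InjOn (fun k => (3 * k + 2) % M) (range M : Finset ℕ) := by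
    intro k hk k' hk' h
    rw [mem_coe, mem_range] at hk hk'
    have h1 : 3 * k + 2 ≡ 3 * k' + 2 [MOD M] := h
    have h2 := Nat.ModEq.add_right_cancel' 2 h1
    have h4 := Nat.ModEq.cancel_left_of_coprime (by simpa using h3) h2
    exact Nat.ModEq.eq_of_lt_of_lt h4 hk hk'
  have himg : (range M).image (fun k => (3 * k + 2) % M) = range M := by
    apply eq_of_subset_of_card_le
    · intro x hx
      rw [mem_image] at hx
      obtain ⟨k, -, rfl⟩ := hx
      exact mem_range.2 (Nat.mod_lt _ hM)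
    · rw [card_image_of_injOn hinj]
  calc ∑ k ∈ range M, g (3 * k + 2) = ∑ k ∈ range M, g ((3 * k + 2) % M) :=
        sum_congr rfl fun k _ => (hg _).symm
    _ = ∑ x ∈ (range M).image (fun k => (3 * k + 2) % M), g x := (sum_image hinj).symm
    _ = _ := by rw [himg]

lemma sum_q (z : ℝ) (J : ℕ) : ∑ n ∈ range (2 ^ J), z ^ q J n = (1 + z) ^ J := by
  induction J with
  | zero => simp [q]
  | succ J ih =>
    have h1 : ∀ k, z ^ q (J + 1) (2 * k) + z ^ q (J + 1) (2 * k + 1) =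
        z ^ q J k + z * z ^ q J (3 * k + 2) := by
      intro k
      rw [q, q, T_even, T_odd, Nat.mul_mod_right, zero_add,
        show (2 * k + 1) % 2 = 1 by omega, pow_add, pow_one]
    rw [pow_succ, mul_comm, sum_two, sum_congr rfl fun k _ => h1 k, sum_add_distrib, ← mul_sum,
      sum_perm (fun n => z ^ q J n) (by positivity) (Nat.Coprime.pow_left _ (by norm_num))
        (fun n => by rw [q_mod]), ih, pow_succ]
    ring

/-- Hoeffding -/
lemma hoeff (t : ℝ) (J : ℕ) :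
    ∑ n ∈ range (2 ^ J), Real.exp (t * (q J n - J / 2)) ≤ 2 ^ J * Real.exp (t ^ 2 * J / 8) := by
  have h1 : ∀ n, Real.exp (t * ((q J n : ℝ) - J / 2)) =
      Real.exp (-(t * J / 2)) * Real.exp t ^ q J n := by
    intro n
    rw [← Real.exp_nat_mul, ← Real.exp_add]
    congr 1
    ring
  rw [sum_congr rfl fun n _ => h1 n, ← mul_sum, sum_q]
  have h2 : Real.exp (-(t * J / 2)) = Real.exp (-(t / 2)) ^ J := by
    rw [← Real.exp_nat_mul]
    congr 1
    ring
  have h3 : Real.exp (-(t / 2)) * (1 + Real.exp t) = 2 * Real.cosh (t / 2) := by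
    rw [Real.cosh_eq, mul_add, mul_one, ← Real.exp_add]
    ring_nf
  rw [h2, ← mul_pow, h3, mul_pow]
  refine mul_le_mul_of_nonneg_left ?_ (by positivity)
  have h4 := Real.cosh_le_exp_half_sq (t / 2)
  calc Real.cosh (t / 2) ^ J ≤ Real.exp ((t / 2) ^ 2 / 2) ^ J :=
        pow_le_pow_left₀ (Real.cosh_pos _).le h4 J
    _ = _ := by
      rw [← Real.exp_nat_mul]
      congr 1
      ring

/-- few residue classes are bad -/
lemma few (η : ℝ) (hη : 0 ≤ η) (J : ℕ) :
    (((range (2 ^ J)).filter fun n => η * J < |(q J n : ℝ) - J / 2|).card : ℝ) ≤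
      2 * 2 ^ J * Real.exp (-(2 * η ^ 2 * J)) := by
  have h1 := hoeff (4 * η) J
  have h2 := hoeff (-(4 * η)) J
  have h3 : (((range (2 ^ J)).filter fun n => η * J < |(q J n : ℝ) - J / 2|).card : ℝ) *
      Real.exp (4 * η * (η * J)) ≤ ∑ n ∈ range (2 ^ J),
        (Real.exp (4 * η * ((q J n : ℝ) - J / 2)) + Real.exp (-(4 * η) * ((q J n : ℝ) - J / 2))) := by
    rw [← nsmul_eq_mul]
    refine le_trans (card_nsmul_le_sum _ (fun n =>
      (Real.exp (4 * η * ((q J n : ℝ) - J / 2)) + Real.exp (-(4 * η) * ((q J n : ℝ) - J / 2)))) _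
      fun n hn => ?_) (sum_le_sum_of_subset_of_nonneg (filter_subset _ _) fun n _ _ => by positivity)
    rw [mem_filter] at hn
    have h4 := hn.2
    rcases abs_cases ((q J n : ℝ) - J / 2) with h | h
    · rw [h.1] at h4
      have h5 : Real.exp (4 * η * (η * J)) ≤ Real.exp (4 * η * ((q J n : ℝ) - J / 2)) :=
        Real.exp_le_exp.2 (mul_le_mul_of_nonneg_left h4.le (by positivity))
      linarith [Real.exp_pos (-(4 * η) * ((q J n : ℝ) - J / 2))]
    · rw [h.1] at h4
      have h5 : Real.exp (4 * η * (η * J)) ≤ Real.exp (-(4 * η) * ((q J n : ℝ) - J / 2)) := by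
        rw [neg_mul, ← mul_neg]
        exact Real.exp_le_exp.2 (mul_le_mul_of_nonneg_left h4.le (by positivity))
      linarith [Real.exp_pos (4 * η * ((q J n : ℝ) - J / 2))]
  rw [sum_add_distrib] at h3
  have h6 : (4 * η) ^ 2 * J / 8 = 2 * η ^ 2 * J := by ring
  have h7 : (-(4 * η)) ^ 2 * J / 8 = 2 * η ^ 2 * J := by ring
  rw [h6] at h1
  rw [h7] at h2
  have h8 : Real.exp (4 * η * (η * J)) = Real.exp (2 * η ^ 2 * J) * Real.exp (2 * η ^ 2 * J) := by
    rw [← Real.exp_add]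
    congr 1
    ring
  rw [h8] at h3
  have h9 : (((range (2 ^ J)).filter fun n => η * J < |(q J n : ℝ) - J / 2|).card : ℝ) *
      Real.exp (2 * η ^ 2 * J) ≤ 2 * 2 ^ J := by
    have hpos := Real.exp_pos (2 * η ^ 2 * J)
    nlinarith
  rw [Real.exp_neg, ← div_eq_mul_inv, le_div_iff₀ (Real.exp_pos _)]
  exact h9

lemma growth (J : ℕ) : ∀ n, 2 ^ J * T^[J] n + 2 ^ J ≤ 3 ^ q J n * n + 3 ^ J := by
  induction J with
  | zero => intro n; simp [q]
  | succ J ih =>
    intro n
    rw [Function.iterate_succ_apply]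
    have h1 := ih (T n)
    have h2 : 3 ^ q J (T n) ≤ 3 ^ J := Nat.pow_le_pow_right (by norm_num) (q_le J _)
    rcases Nat.even_or_odd' n with ⟨m, rfl | rfl⟩
    · rw [q, T_even, Nat.mul_mod_right, zero_add]
      rw [T_even] at h1
      rw [pow_succ, pow_succ]
      have h3 : 0 < 3 ^ J := by positivity
      nlinarith
    · have e : 3 ^ (1 + q J (3 * m + 2)) = 3 * 3 ^ q J (3 * m + 2) := by rw [pow_add, pow_one]
      rw [q, T_odd, show (2 * m + 1) % 2 = 1 by omega, e]
      rw [T_odd] at h1 h2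
      rw [pow_succ, pow_succ]
      have h3 : 0 < 3 ^ J := by positivity
      nlinarith

lemma q_succ' (j : ℕ) : ∀ n, q (j + 1) n = q j n + T^[j] n % 2 := by
  induction j with
  | zero => intro n; simp [q]
  | succ j ih =>
    intro n
    rw [q, ih (T n), q, Function.iterate_succ_apply]
    ring

lemma CC_spec {m : ℕ} (hm : Odd m) : ∃ e, (3 * m + 1) / 2 = 2 ^ e * CC m ∧ Odd (CC m) := by
  have h0 : 3 * m + 1 ≠ 0 := by omega
  have hdvd : 2 ^ padicValNat 2 (3 * m + 1) ∣ 3 * m + 1 := pow_padicValNat_dvd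
  have h1 : 3 * m + 1 = 2 ^ padicValNat 2 (3 * m + 1) * CC m := by
    unfold CC
    rw [Nat.mul_div_cancel' hdvd]
  have h2 : 1 ≤ padicValNat 2 (3 * m + 1) := by
    apply one_le_padicValNat_of_dvd h0
    obtain ⟨k, hk⟩ := hm
    exact ⟨3 * k + 2, by omega⟩
  have hodd : Odd (CC m) := by
    rw [← Nat.not_even_iff_odd]
    intro hev
    obtain ⟨k, hk⟩ := hev.two_dvd
    apply pow_succ_padicValNat_not_dvd (p := 2) h0
    rw [pow_succ]
    refine ⟨k, ?_⟩
    conv_lhs => rw [h1, hk]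
    ring
  obtain ⟨e, he⟩ := Nat.exists_eq_add_of_le h2
  refine ⟨e, ?_, hodd⟩
  have h3 : 3 * m + 1 = 2 * (2 ^ e * CC m) := by
    conv_lhs => rw [h1, he]
    ring
  omega

lemma rel {n : ℕ} (hn : Odd n) (j : ℕ) :
    Odd (CC^[q j n] n) ∧ ∃ a, T^[j] n = 2 ^ a * CC^[q j n] n := by
  induction j with
  | zero => exact ⟨hn, 0, by simp [q]⟩
  | succ j ih =>
    obtain ⟨hodd, a, ha⟩ := ih
    rw [q_succ', Function.iterate_succ_apply', ha]
    rcases a with _ | a
    · rw [pow_zero, one_mul]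
      obtain ⟨y, hy⟩ : ∃ y, y = CC^[q j n] n := ⟨_, rfl⟩
      have h1 : CC^[q j n] n % 2 = 1 := Nat.odd_iff.1 hodd
      rw [h1, Function.iterate_succ_apply']
      rw [← hy] at hodd h1 ⊢
      obtain ⟨e, he, ho⟩ := CC_spec hodd
      refine ⟨ho, e, ?_⟩
      rw [← he]
      unfold T
      rw [if_neg (by omega)]
    · have h1 : 2 ^ (a + 1) * CC^[q j n] n = 2 * (2 ^ a * CC^[q j n] n) := by ring
      rw [h1, Nat.mul_mod_right, add_zero, T_even]
      exact ⟨hodd, a, rfl⟩

lemma CC_le {n : ℕ} (hn : Odd n) (j : ℕ) : CC^[q j n] n ≤ T^[j] n := by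
  obtain ⟨-, a, ha⟩ := rel hn j
  rw [ha]
  exact Nat.le_mul_of_pos_left _ (by positivity)

end Pool.Agent.L0h78.DG
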