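import Pool.Agent.L0h78.DG.Four
import Pool.Agent.L0h78.DG.Tmap

/-! The first iterates of the `3x+1` map for integers with restricted digits. -/

set_option autoImplicit false

namespace Pool.Agent.L0h78.DG

open Finset

lemma growth_lower (J : ℕ) : ∀ n, 3 ^ q J n * n ≤ 2 ^ J * T^[J] n := by
  induction J with
  | zero => intro n; simp [q]
  | succ J ih =>
    intro n
    rw [Function.iterate_succ_apply]
    have h1 := ih (T n)
    rcases Nat.even_or_odd' n with ⟨m, rfl | rfl⟩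
    · rw [q, T_even, Nat.mul_mod_right, zero_add]
      rw [T_even] at h1
      rw [pow_succ]
      nlinarith
    · have e : 3 ^ (1 + q J (3 * m + 2)) = 3 * 3 ^ q J (3 * m + 2) := by rw [pow_add, pow_one]
      rw [q, T_odd, show (2 * m + 1) % 2 = 1 by omega, e]
      rw [T_odd] at h1
      rw [pow_succ]
      have h3 : 0 < 3 ^ q J (3 * m + 2) := by positivity
      nlinarith

/-- the time of the `k`-th odd term -/
lemma exists_time {n : ℕ} (hn : Odd n) {k J₁ : ℕ} (hk : k < q J₁ n) :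
    ∃ j < J₁, q j n = k ∧ T^[j] n = CC^[k] n := by
  classical
  have hex : ∃ j, k < q j n := ⟨J₁, hk⟩
  have h1 := Nat.find_spec hex
  have h2 : Nat.find hex ≤ J₁ := Nat.find_min' hex hk
  have h0 : Nat.find hex ≠ 0 := by
    intro h
    rw [h] at h1
    simp [q] at h1
  obtain ⟨j, hj⟩ := Nat.exists_eq_succ_of_ne_zero h0
  have h3 : ¬ k < q j n := Nat.find_min hex (by omega)
  rw [hj, Nat.succ_eq_add_one, q_succ'] at h1
  have h4 : T^[j] n % 2 < 2 := Nat.mod_lt _ (by norm_num)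
  have h5 : q j n = k := by omega
  have h6 : T^[j] n % 2 = 1 := by omega
  refine ⟨j, by omega, h5, ?_⟩
  obtain ⟨-, a, ha⟩ := rel hn j
  rw [h5] at ha
  rcases a with _ | a
  · rw [ha, pow_zero, one_mul]
  · exfalso
    rw [ha, pow_succ] at h6
    have : 2 ^ a * 2 * CC^[k] n = 2 * (2 ^ a * CC^[k] n) := by ring
    omega

section

variable {b : ℕ} {D : ℕ → Finset ℕ}

lemma mem_small {r N : ℕ} (hb : 1 ≤ b) (hrN : r ≤ N) : ∀ n ∈ SS b D N, n < b ^ r → n ∈ SS b D r := by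
  induction N, hrN using Nat.le_induction with
  | base => intro n hn _; exact hn
  | succ N hN ih =>
    intro n hn hlt
    rw [SS, mem_image] at hn
    obtain ⟨p, hp, rfl⟩ := hn
    rw [mem_product] at hp
    have h1 : b ^ r ≤ b ^ N := Nat.pow_le_pow_right hb hN
    have h2 : p.2 = 0 := by
      by_contra h
      have h3 : 1 * b ^ N ≤ p.2 * b ^ N := Nat.mul_le_mul_right _ (by omega)
      omega
    rw [h2, zero_mul, add_zero] at hlt ⊢
    exact ih _ hp.1 hlt

lemma card_ratio (hD : ∀ i, ∀ x ∈ D i, x < b) (h2 : ∀ i, 2 ≤ (D i).card) {r N : ℕ} (hrN : r ≤ N) :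
    (SS b D r).card * 2 ^ (N - r) ≤ (SS b D N).card := by
  rw [card_SS hD, card_SS hD, ← prod_range_mul_prod_Ico _ hrN]
  refine Nat.mul_le_mul_left _ ?_
  calc 2 ^ (N - r) = ∏ i ∈ Ico r N, 2 := by rw [prod_const, Nat.card_Ico]
    _ ≤ ∏ i ∈ Ico r N, (D i).card := prod_le_prod (fun _ _ => by norm_num) fun i _ => h2 i

/-- sets given by a condition modulo `2 ^ J` -/
lemma classes {F J N : ℕ} {δ u : ℕ → ℕ} (hb : 2 ≤ b) (hbodd : Odd b) (hFodd : Odd F)
    (hδ : ∀ i, δ i ∣ F) (hD : ∀ i, ∀ x ∈ D i, x < b) (hu : ∀ i, u i ∈ D i)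
    (hv : ∀ i, u i + δ i ∈ D i) (P : ℕ → Prop) [DecidablePred P] (hP : ∀ n, P n → P (n % 2 ^ J)) :
    (((SS b D N).filter P).card : ℝ) ≤ ((range (2 ^ J)).filter P).card *
      ((SS b D N).card * (1 / 2 ^ J + (1 - 1 / (4 * b ^ 3 * F ^ 2)) ^ (N / (J + 1)))) := by
  classical
  have : NeZero (2 ^ J) := ⟨by positivity⟩
  have hsub : (SS b D N).filter P ⊆ ((range (2 ^ J)).filter P).biUnion fun a =>
      (SS b D N).filter fun n => ((n : ℕ) : ZMod (2 ^ J)) = (a : ZMod (2 ^ J)) := by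
    intro n hn
    rw [mem_filter] at hn
    rw [mem_biUnion]
    refine ⟨n % 2 ^ J, mem_filter.2 ⟨mem_range.2 (Nat.mod_lt _ (by positivity)), hP n hn.2⟩,
      mem_filter.2 ⟨hn.1, ?_⟩⟩
    rw [ZMod.natCast_eq_natCast_iff]
    exact (Nat.mod_modEq n _).symm
  have h1 : (((SS b D N).filter P).card : ℝ) ≤ ∑ a ∈ (range (2 ^ J)).filter P,
      (((SS b D N).filter fun n => ((n : ℕ) : ZMod (2 ^ J)) = (a : ZMod (2 ^ J))).card : ℝ) := by
    exact_mod_cast (card_le_card hsub).trans card_biUnion_le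
  refine h1.trans ?_
  rw [← nsmul_eq_mul]
  refine sum_le_card_nsmul _ _ _ fun a _ => ?_
  have hcb : b.Coprime (2 ^ J) := Nat.Coprime.pow_right _ hbodd.coprime_two_right
  have hcF : F.Coprime (2 ^ J) := Nat.Coprime.pow_right _ hFodd.coprime_two_right
  have h2 := equi (m := 2 ^ J) (L := J) hb hFodd.pos hcb hcF hδ hD hu hv
    (Nat.pow_le_pow_left hb J) (a : ZMod (2 ^ J)) N
  push_cast at h2
  exact h2

end

end Pool.Agent.L0h78.DG
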