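import Pool.Agent.L0h78.DG.Thm
import Pool.Agent.L0h20.TA.Coef

/-! The parity of `t`-multipartitions for `t` in thin sets given by restricted digits. -/

set_option autoImplicit false

namespace Pool.Agent.L0h78.DG

open Finset PowerSeries Pool.Agent.L0h63.MP

lemma cntk_mono' (F : (ZMod 2)⟦X⟧) (κ : ZMod 2) {x y : ℕ} (h : x ≤ y) (t : ℕ) :
    cntk F κ x t ≤ cntk F κ y t := by
  unfold cntk
  refine card_le_card (filter_subset_filter _ ?_)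
  intro n hn
  rw [mem_range] at hn ⊢
  omega

lemma cntk_mod (F : (ZMod 2)⟦X⟧) (κ : ZMod 2) (J t : ℕ) :
    cntk F κ (2 ^ J) (t % 2 ^ J) = cntk F κ (2 ^ J) t := by
  unfold cntk
  congr 1
  refine filter_congr fun n hn => ?_
  rw [mem_range] at hn
  rw [Pool.Agent.L0h20.TA.coeff_congr F (Nat.mod_modEq t (2 ^ J)) hn]

/-- the scale `min (x, exp (c √N))` -/
lemma scale {c₁ : ℝ} (_hc0 : 0 < c₁) (N x : ℕ) (hx : 1 ≤ x) :
    ∃ J ≤ ⌊c₁ * √(N : ℝ)⌋₊, 2 ^ J ≤ x ∧ min (x : ℝ) (Real.exp (c₁ / 2 * √(N : ℝ))) ≤ 2 * 2 ^ J := by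
  have hs0 : 0 ≤ √(N : ℝ) := Real.sqrt_nonneg _
  rcases le_total (Nat.log 2 x) ⌊c₁ * √(N : ℝ)⌋₊ with h | h
  · refine ⟨Nat.log 2 x, h, Nat.pow_log_le_self 2 (by omega), (min_le_left _ _).trans ?_⟩
    have h1 : x < 2 ^ (Nat.log 2 x + 1) := Nat.lt_pow_succ_log_self (by norm_num) x
    have h2 : (x : ℝ) < 2 ^ (Nat.log 2 x + 1) := by exact_mod_cast h1
    rw [pow_succ] at h2
    linarith
  · refine ⟨⌊c₁ * √(N : ℝ)⌋₊, le_rfl,
      (Nat.pow_le_pow_right (by norm_num) h).trans (Nat.pow_log_le_self 2 (by omega)),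
      (min_le_right _ _).trans ?_⟩
    have h1 : c₁ * √(N : ℝ) < ⌊c₁ * √(N : ℝ)⌋₊ + 1 := Nat.lt_floor_add_one _
    have h2 : Real.exp (1 / 2) ≤ 2 := by
      have h3 : Real.exp (1 / 2) ≤ Real.exp (Real.log 2) := Real.exp_le_exp.2 (by
        linarith [Real.log_two_gt_d9])
      rwa [Real.exp_log (by norm_num)] at h3
    calc Real.exp (c₁ / 2 * √(N : ℝ)) ≤ Real.exp (((⌊c₁ * √(N : ℝ)⌋₊ + 1 : ℕ) : ℝ) * (1 / 2)) := by
          apply Real.exp_le_exp.2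
          push_cast
          linarith
      _ = Real.exp (1 / 2) ^ (⌊c₁ * √(N : ℝ)⌋₊ + 1) := Real.exp_nat_mul _ _
      _ ≤ 2 ^ (⌊c₁ * √(N : ℝ)⌋₊ + 1) := pow_le_pow_left₀ (Real.exp_pos _).le h2 _
      _ = _ := by rw [pow_succ]; ring

/-- **few `t` with restricted digits have few odd (even) values** -/
theorem mp (b : ℕ) (hb : 3 ≤ b) (hbo : Odd b) (ε : ℝ) (hε : 0 < ε) (hε1 : ε < 1) :
    ∃ c C : ℝ, 0 < c ∧ 0 < C ∧ ∀ (N : ℕ) (D : ℕ → Finset ℕ), (∀ i, ∀ x ∈ D i, x < b) →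
      (∀ i, (∃ x ∈ D i, Even x) ∧ ∃ x ∈ D i, Odd x) →
      ∀ F : (ZMod 2)⟦X⟧, coeff 0 F ≠ 0 → ∀ (κ : ZMod 2) (x : ℕ) (y : ℝ), 1 ≤ x → 1 ≤ y →
      (((SS b D N).filter fun t => (cntk F κ x t : ℝ) ≤ y).card : ℝ) ≤
        C * y * (SS b D N).card / (min (x : ℝ) (Real.exp (c * √(N : ℝ)))) ^ (1 - ε) := by
  classical
  obtain ⟨C₀, hC₀, hfin⟩ := final ε hε
  -- the constants
  obtain ⟨F₀, hF₀⟩ : ∃ F₀, F₀ = ∏ j ∈ (range b).filter Odd, j := ⟨_, rfl⟩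
  have hFo : Odd F₀ := by
    rw [hF₀]
    exact prod_induction _ Odd (fun _ _ h1 h2 => h1.mul h2) odd_one fun x hx => (mem_filter.1 hx).2
  have hFdvd : ∀ d, Odd d → d < b → d ∣ F₀ := fun d h1 h2 => by
    rw [hF₀]
    exact dvd_prod_of_mem (fun j => j) (mem_filter.2 ⟨mem_range.2 h2, h1⟩)
  obtain ⟨ρ, hρ⟩ : ∃ ρ : ℝ, ρ = 1 - 1 / (4 * b ^ 3 * F₀ ^ 2) := ⟨_, rfl⟩
  have hbR : (3 : ℝ) ≤ b := by exact_mod_cast hb
  have hFR : (1 : ℝ) ≤ F₀ := by exact_mod_cast hFo.pos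
  have hq1 : (1 : ℝ) < 4 * b ^ 3 * F₀ ^ 2 := by
    have h1 : (1 : ℝ) ≤ b ^ 3 := one_le_pow₀ (by linarith)
    have h2 : (1 : ℝ) ≤ F₀ ^ 2 := one_le_pow₀ hFR
    nlinarith
  have hρ0 : 0 < ρ := by
    have : (1 : ℝ) / (4 * b ^ 3 * F₀ ^ 2) < 1 := by
      rw [div_lt_one (by linarith)]
      exact hq1
    rw [hρ]
    linarith
  have hρ1 : ρ < 1 := by
    have : (0 : ℝ) < 1 / (4 * b ^ 3 * F₀ ^ 2) := by positivity
    rw [hρ]
    linarith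
  obtain ⟨l, hl⟩ : ∃ l, l = -Real.log ρ := ⟨_, rfl⟩
  have hl0 : 0 < l := by
    rw [hl]
    linarith [Real.log_neg hρ0 hρ1]
  obtain ⟨c₁, hc₁⟩ : ∃ c₁, c₁ = min 1 (l / 8) := ⟨_, rfl⟩
  have hc0 : 0 < c₁ := by
    rw [hc₁]
    positivity
  have hc1 : c₁ ≤ 1 := by
    rw [hc₁]
    exact min_le_left _ _
  have hcl : c₁ ≤ l / 8 := by
    rw [hc₁]
    exact min_le_right _ _
  have hel := Real.exp_pos l
  refine ⟨c₁ / 2, 2 * C₀ * (17 + Real.exp l), by positivity, by positivity,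
    fun N D hD hpar F hF κ x y hx hy => ?_⟩
  have hdig : ∀ i, ∃ u δ, u ∈ D i ∧ u + δ ∈ D i ∧ δ ∣ F₀ := by
    intro i
    obtain ⟨⟨y, hy, hye⟩, ⟨z, hz, hzo⟩⟩ := hpar i
    rcases lt_or_ge y z with h | h
    · refine ⟨y, z - y, hy, by rwa [Nat.add_sub_cancel' h.le], hFdvd _ ?_ ?_⟩
      · exact Nat.Odd.sub_even h.le hzo hye
      · have := hD i z hz
        omega
    · have h' : z ≤ y := h
      refine ⟨z, y - z, hz, by rwa [Nat.add_sub_cancel' h'], hFdvd _ ?_ ?_⟩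
      · exact Nat.Even.sub_odd h' hye hzo
      · have := hD i y hy
        omega
  choose u δ hu hv hδ using hdig
  obtain ⟨J, hJ, hJx, hJm⟩ := scale hc0 N x hx
  have hS0 : (0 : ℝ) ≤ (SS b D N).card := Nat.cast_nonneg _
  have h2J : (0 : ℝ) < 2 ^ J := by positivity
  -- reduction to the scale `2 ^ J`
  have h1 : (((SS b D N).filter fun t => (cntk F κ x t : ℝ) ≤ y).card : ℝ) ≤
      ((SS b D N).filter fun t => (cntk F κ (2 ^ J) t : ℝ) ≤ y).card := by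
    have h : (SS b D N).filter (fun t => (cntk F κ x t : ℝ) ≤ y) ⊆
        (SS b D N).filter (fun t => (cntk F κ (2 ^ J) t : ℝ) ≤ y) := by
      intro t ht
      rw [mem_filter] at ht ⊢
      refine ⟨ht.1, le_trans ?_ ht.2⟩
      exact_mod_cast cntk_mono' F κ hJx t
    exact_mod_cast card_le_card h
  have h2 := classes (N := N) (J := J) (by omega) hbo hFo hδ hD hu hv
    (fun t => (cntk F κ (2 ^ J) t : ℝ) ≤ y) (fun t ht => by
      rw [cntk_mod]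
      exact ht)
  have h3 := hfin F hF κ 0 (2 ^ J) (2 ^ J) y Nat.one_le_two_pow Nat.one_le_two_pow hy
  rw [zero_add, min_self, ← range_eq_Ico] at h3
  push_cast at h3
  rw [← hρ] at h2
  have h4 : (2 : ℝ) ^ J * ρ ^ (N / (J + 1)) ≤ 16 + Real.exp l := by
    have hρp : ρ ^ (N / (J + 1)) ≤ 1 := pow_le_one₀ hρ0.le hρ1.le
    have hρp0 : 0 ≤ ρ ^ (N / (J + 1)) := by positivity
    by_cases hs : 4 / c₁ < √(N : ℝ)
    · have h5 := pow_rho hρ0 hρ1.le hl hc0 hc1 hcl hs hJ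
      have h6 : Real.exp (-(3 * √(N : ℝ))) ≤ 1 := by
        rw [Real.exp_le_one_iff]
        have := Real.sqrt_nonneg (N : ℝ)
        linarith
      nlinarith
    · push Not at hs
      have h5 : (J : ℝ) ≤ 4 := by
        have h6 : (J : ℝ) ≤ (⌊c₁ * √(N : ℝ)⌋₊ : ℝ) := by exact_mod_cast hJ
        have h7 : (⌊c₁ * √(N : ℝ)⌋₊ : ℝ) ≤ c₁ * √(N : ℝ) := Nat.floor_le (by positivity)
        have h8 := mul_le_mul_of_nonneg_left hs hc0.le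
        rw [mul_div_cancel₀ _ hc0.ne'] at h8
        linarith
      have h6 : J ≤ 4 := by exact_mod_cast h5
      have h7 : (2 : ℝ) ^ J ≤ 16 := by
        calc (2 : ℝ) ^ J ≤ 2 ^ 4 := pow_le_pow_right₀ (by norm_num) h6
          _ = 16 := by norm_num
      nlinarith
  -- the powers
  have hm0 : 0 < min (x : ℝ) (Real.exp (c₁ / 2 * √(N : ℝ))) :=
    lt_min (by exact_mod_cast hx) (Real.exp_pos _)
  have h5 : (min (x : ℝ) (Real.exp (c₁ / 2 * √(N : ℝ)))) ^ (1 - ε) ≤ 2 * ((2 : ℝ) ^ J) ^ (1 - ε) := by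
    calc (min (x : ℝ) (Real.exp (c₁ / 2 * √(N : ℝ)))) ^ (1 - ε) ≤ (2 * (2 : ℝ) ^ J) ^ (1 - ε) :=
          Real.rpow_le_rpow hm0.le hJm (by linarith)
      _ = (2 : ℝ) ^ (1 - ε) * ((2 : ℝ) ^ J) ^ (1 - ε) := Real.mul_rpow (by norm_num) h2J.le
      _ ≤ 2 * ((2 : ℝ) ^ J) ^ (1 - ε) := by
          refine mul_le_mul_of_nonneg_right ?_ (by positivity)
          calc (2 : ℝ) ^ (1 - ε) ≤ 2 ^ (1 : ℝ) :=
                Real.rpow_le_rpow_of_exponent_le (by norm_num) (by linarith)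
            _ = 2 := Real.rpow_one 2
  have hmp : 0 < (min (x : ℝ) (Real.exp (c₁ / 2 * √(N : ℝ)))) ^ (1 - ε) := Real.rpow_pos_of_pos hm0 _
  have hJp : 0 < ((2 : ℝ) ^ J) ^ (1 - ε) := Real.rpow_pos_of_pos h2J _
  have h7 : (0 : ℝ) ≤ (SS b D N).card * (1 / 2 ^ J + ρ ^ (N / (J + 1))) := by positivity
  have h8 : ((range (2 ^ J)).filter fun t => (cntk F κ (2 ^ J) t : ℝ) ≤ y).card *
      ((SS b D N).card * (1 / 2 ^ J + ρ ^ (N / (J + 1)))) ≤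
      C₀ * y * 2 ^ J / ((2 : ℝ) ^ J) ^ (1 - ε) * ((SS b D N).card *
        (1 / 2 ^ J + ρ ^ (N / (J + 1)))) := mul_le_mul_of_nonneg_right h3 h7
  have h9 : C₀ * y * 2 ^ J / ((2 : ℝ) ^ J) ^ (1 - ε) * ((SS b D N).card *
        (1 / 2 ^ J + ρ ^ (N / (J + 1)))) = C₀ * y * (SS b D N).card / ((2 : ℝ) ^ J) ^ (1 - ε) *
        (1 + 2 ^ J * ρ ^ (N / (J + 1))) := by
    field_simp
  rw [h9] at h8
  have hCy : 0 ≤ C₀ * y * (SS b D N).card / ((2 : ℝ) ^ J) ^ (1 - ε) := by positivity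
  have h10 : C₀ * y * (SS b D N).card / ((2 : ℝ) ^ J) ^ (1 - ε) * (1 + 2 ^ J * ρ ^ (N / (J + 1))) ≤
      C₀ * y * (SS b D N).card / ((2 : ℝ) ^ J) ^ (1 - ε) * (17 + Real.exp l) :=
    mul_le_mul_of_nonneg_left (by linarith) hCy
  refine h1.trans (h2.trans (h8.trans (h10.trans ?_)))
  rw [div_mul_eq_mul_div, div_le_div_iff₀ hJp hmp]
  have h11 : 0 ≤ C₀ * y * (SS b D N).card * (17 + Real.exp l) := by positivity
  have h12 := mul_le_mul_of_nonneg_left h5 h11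
  calc C₀ * y * (SS b D N).card * (17 + Real.exp l) *
        (min (x : ℝ) (Real.exp (c₁ / 2 * √(N : ℝ)))) ^ (1 - ε) ≤
        C₀ * y * (SS b D N).card * (17 + Real.exp l) * (2 * ((2 : ℝ) ^ J) ^ (1 - ε)) := h12
    _ = _ := by ring

end Pool.Agent.L0h78.DG
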